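import Pool.Agent.Lib.MP_d476f3_gt.Abs.Fn

open Set MeasureTheory Filter Topology
open scoped ContDiff ENNReal NNReal

noncomputable section

namespace Pool.Agent.Lib.MP_d476f3_gt.Abs

/-- the data of the deformations of the identity -/
structure Dat (κ : Type) (m n : ℕ) where
  φ : (Fin m → ℝ) → (Fin n → ℝ)
  G : Fin (n + 1) → (Fin m → ℝ) × ℝ → (Fin m → ℝ)
  z : Fin (n + 1) → (Fin m → ℝ)
  lab : κ → (Fin n → ℤ) → Fin (n + 1)
  σ : κ → ℝ
  ρ : ℝ
  hφ : ContDiff ℝ ∞ φ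
  hG : ∀ j, ContDiff ℝ ∞ (G j)
  G0 : ∀ j x, G j (x, 0) = x
  G1 : ∀ j x, G j (x, 1) = z j
  hρ : 0 < ρ
  sep : ∀ i i' (k : ℤ), |σ i - σ i' - k| < 4 * ρ → i = i'

namespace Dat

variable {κ : Type} {m n : ℕ} (D : Dat κ m n) {ty : κ → ℕ} {τ : κ × Fin m → ℝ} {r : ℝ}
  {x : Fin m → ℝ}

/-- the time of the contraction -/
def tm (i : κ) (y : Fin n → ℝ) : ℝ := ∏ a, (1 - W false (uu (fun z => D.σ z.1) D.ρ i a y))

/-- the deformation of the identity attached to a copy -/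
def ff (i : κ) (u : ℝ) (x : Fin m → ℝ) : Fin m → ℝ :=
  D.G (D.lab i fun a => ⌊D.φ x a - D.σ i⌋) (x, u * D.tm i (D.φ x))

/-- the copy is in transition at `x` -/
def Tr (i : κ) (x : Fin m → ℝ) : Prop := ∃ a, ∃ k : ℤ, |D.φ x a - D.σ i - k| < 2 * D.ρ

/-- the coordinates of the map defining the metric -/
def F (τ : κ × Fin m → ℝ) (r : ℝ) (c : Sh ty m × Fin m) (x : Fin m → ℝ) : ℝ :=
  FF τ r 1 c (D.ff c.1.1.1 1 x)

lemma tm_smooth (i : κ) : ContDiff ℝ ∞ (D.tm i) :=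
  contDiff_prod fun a _ => contDiff_const.sub ((W_smooth _).comp (uu_smooth _ a))

lemma one_sub_mem (u : ℝ) : 1 - W false u ∈ Icc (0 : ℝ) 1 :=
  ⟨sub_nonneg.2 bp.le_one, sub_le_self _ bp.nonneg⟩

lemma tm_mem (i : κ) (y : Fin n → ℝ) : D.tm i y ∈ Icc (0 : ℝ) 1 :=
  ⟨Finset.prod_nonneg fun _ _ => (one_sub_mem _).1,
    Finset.prod_le_one (fun _ _ => (one_sub_mem _).1) fun _ _ => (one_sub_mem _).2⟩

lemma tm_deriv {C : ℝ≥0} (hC : ∀ b, LipschitzWith C (W b)) (i : κ) (y : Fin n → ℝ) :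
    ‖fderiv ℝ (D.tm i) y‖ ≤ n * (C * Real.pi / D.ρ) := by
  have hp := Real.pi_pos
  have hr := D.hρ
  have h : LipschitzWith (n * (C * Real.pi / D.ρ) : ℝ).toNNReal (D.tm i) :=
    LipschitzWith.of_dist_le' fun x y => by
      rw [Real.dist_eq, mul_assoc]
      refine (lip_prod _ (fun a y => 1 - W false (uu (fun z => D.σ z.1) D.ρ i a y))
        (L := C * Real.pi / D.ρ) (fun _ _ => abs_le.2 ⟨le_trans (by norm_num) (one_sub_mem _).1,
          (one_sub_mem _).2⟩) (fun t x y => ?_) x y).trans (by simp)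
      rw [sub_sub_sub_cancel_left, abs_sub_comm]
      refine ((hC _).dist_le_mul _ _).trans ?_
      rw [Real.dist_eq, uu, uu, ← sub_div, abs_div, abs_of_pos hr, mul_div_assoc, mul_assoc,
        div_mul_eq_mul_div]
      gcongr
      refine (Real.abs_sin_sub_sin_le _ _).trans ?_
      rw [← mul_sub, abs_mul, abs_of_pos hp, sub_sub_sub_cancel_right]
      exact mul_le_mul_of_nonneg_left (dist_le_pi_dist x y t) hp.le
  exact (norm_fderiv_le_of_lipschitz ℝ h).trans_eq (Real.coe_toNNReal _ (by positivity))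

lemma isOpen_Tr (i : κ) : IsOpen {x | D.Tr i x} := by
  have := D.hφ.continuous
  simp only [Tr, ofPred_exists]
  exact isOpen_iUnion fun a => isOpen_iUnion fun k => isOpen_lt (by fun_prop) continuous_const

lemma local_form (i : κ) (x₀ : Fin m → ℝ) :
    ∃ j, ∀ᶠ x in 𝓝 x₀, ∀ u, D.ff i u x = D.G j (x, u * D.tm i (D.φ x)) := by
  have hc := D.hφ.continuous
  by_cases h : ∃ a, ∃ k : ℤ, D.φ x₀ a - D.σ i = k
  · obtain ⟨a, k, h⟩ := h
    have h1 : |uu (fun z => D.σ z.1) D.ρ i a (D.φ x₀)| < 1 := by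
      have := abs_sin_int 0 k
      simp only [zero_add, mul_zero, Real.sin_zero, abs_zero] at this
      simp only [uu, h, abs_div, this, zero_div, zero_lt_one]
    refine ⟨0, ((((uu_smooth i a).continuous.comp hc).abs.tendsto x₀).eventually
      (gt_mem_nhds h1)).mono fun x hx u => ?_⟩
    have : D.tm i (D.φ x) = 0 := Finset.prod_eq_zero (Finset.mem_univ a) (by
      simp only [W, Bool.false_eq_true, if_false]
      exact sub_eq_zero.2 (bp_one hx.le).symm)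
    rw [ff, this, mul_zero, D.G0, D.G0]
  · push Not at h
    refine ⟨D.lab i fun a => ⌊D.φ x₀ a - D.σ i⌋,
      (eventually_all.2 fun a => (((((continuous_apply a).comp hc).sub
      (continuous_const (y := D.σ i))).tendsto x₀).eventually (Ioo_mem_nhds
        ((Int.floor_le _).lt_of_ne (h a _).symm) (Int.lt_floor_add_one _)))).mono
      fun x hx u => ?_⟩
    have : (fun a => ⌊D.φ x a - D.σ i⌋) = fun a => ⌊D.φ x₀ a - D.σ i⌋ :=
      funext fun a => Int.floor_eq_iff.2 ⟨(hx a).1.le, (hx a).2⟩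
    rw [ff, this]

lemma ff_smooth (i : κ) : ContDiff ℝ ∞ (D.ff i 1) := contDiff_iff_contDiffAt.2 fun x => by
  obtain ⟨j, hj⟩ := D.local_form i x
  exact ((D.hG j).comp (contDiff_id.prodMk (contDiff_const.mul
    ((D.tm_smooth i).comp D.hφ)))).contDiffAt.congr_of_eventuallyEq (hj.mono fun y hy => hy 1)

lemma ff_cont (i : κ) : Continuous fun w : ℝ × (Fin m → ℝ) => D.ff i w.1 w.2 :=
  continuous_iff_continuousAt.2 fun w => by
    obtain ⟨j, hj⟩ := D.local_form i w.2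
    exact ((D.hG j).continuous.comp (continuous_snd.prodMk (continuous_fst.mul
      (((D.tm_smooth i).comp D.hφ).continuous.comp continuous_snd)))).continuousAt.congr
        (((continuous_snd.tendsto w).eventually hj).mono fun y hy => (hy y.1).symm)

lemma ff_deriv {C : ℝ≥0} (hC : ∀ b, LipschitzWith C (W b)) {B : ℝ}
    (hB : ∀ j, ∀ s ∈ Icc (0 : ℝ) 1, ‖fderiv ℝ (D.G j) (x, s)‖ ≤ B) (i : κ) (v : Fin m → ℝ) :
    ‖fderiv ℝ (D.ff i 1) x v‖ ≤
      B * max ‖v‖ (n * (C * Real.pi / D.ρ) * ‖fderiv ℝ D.φ x v‖) := by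
  obtain ⟨j, hj⟩ := D.local_form i x
  have h1 : D.ff i 1 =ᶠ[𝓝 x] D.G j ∘ fun y => (y, D.tm i (D.φ y)) :=
    hj.mono fun y hy => by simpa using hy 1
  have h2 := ((D.hG j).differentiable (by simp) _).hasFDerivAt.comp x
    ((hasFDerivAt_id x).prodMk (((D.tm_smooth i).differentiable (by simp) _).hasFDerivAt.comp x
      (D.hφ.differentiable (by simp) x).hasFDerivAt))
  rw [h1.fderiv_eq, show fderiv ℝ (D.G j ∘ fun y => (y, D.tm i (D.φ y))) x = _ from h2.fderiv,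
    ContinuousLinearMap.comp_apply]
  refine (ContinuousLinearMap.le_of_opNorm_le _ (hB j _ (D.tm_mem i _)) _).trans ?_
  refine mul_le_mul_of_nonneg_left (max_le_max le_rfl ?_)
    ((norm_nonneg _).trans (hB j 0 (left_mem_Icc.2 zero_le_one)))
  exact ContinuousLinearMap.le_of_opNorm_le _ (D.tm_deriv hC i _) _

variable [Fintype κ]

lemma deep {i : κ} (h : ¬ D.Tr i x) : ∃ j, D.ff i 1 =ᶠ[𝓝 x] fun _ => D.z j := by
  obtain ⟨j, hj⟩ := D.local_form i x
  have h1 : ∀ a, 2 < |uu (fun z => D.σ z.1) D.ρ i a (D.φ x)| := fun a => by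
    by_contra! h2
    exact h ⟨a, (mem_nr (z := (i, a)) (τ := fun z => D.σ z.1)).1
      (act_near (ty := fun _ => 1) D.hρ (q := ⟨(i, {a}), by simp⟩)
      (fun t ht => by rwa [Finset.mem_singleton.1 ht]) (by simp))⟩
  refine ⟨j, (hj.and (eventually_all.2 fun a => ((((uu_smooth i a).continuous.comp
    D.hφ.continuous).abs.tendsto x).eventually (lt_mem_nhds (h1 a))))).mono fun y hy => ?_⟩
  have : D.tm i (D.φ y) = 1 := Finset.prod_eq_one fun a _ => by
    exact sub_eq_self.2 (W_zero _ (hy.2 a).le)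
  rw [hy.1, this, mul_one, D.G1]

lemma deep_deriv {i : κ} (h : ¬ D.Tr i x) : fderiv ℝ (D.ff i 1) x = 0 := by
  obtain ⟨j, hj⟩ := D.deep h
  rw [hj.fderiv_eq]
  simp

open Classical in
lemma card_Tr (x : Fin m → ℝ) : (Finset.univ.filter fun i => D.Tr i x).card ≤ n := by
  have h : ∀ i : Finset.univ.filter fun i => D.Tr i x, D.Tr i x := fun i =>
    (Finset.mem_filter.1 i.2).2
  choose a k hk using h
  rw [← Fintype.card_coe]
  refine (Fintype.card_le_of_injective a fun i i' e => Subtype.ext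
    (D.sep _ _ (k i' - k i) ?_)).trans_eq (Fintype.card_fin n)
  have h1 := abs_lt.1 (hk i)
  have h2 := abs_lt.1 (hk i')
  rw [e] at h1
  push_cast
  rw [abs_lt]
  constructor <;> linarith [h1.1, h1.2, h2.1, h2.2]

open Classical in
lemma card_sh (x : Fin m → ℝ) :
    (Finset.univ.filter fun q : Sh ty m => D.Tr q.1.1 x).card ≤ n * 2 ^ m := by
  refine (Finset.card_le_card_of_injOn Subtype.val
    (t := (Finset.univ.filter fun i => D.Tr i x) ×ˢ Finset.univ) (fun q hq => by simpa using hq)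
    Subtype.val_injective.injOn).trans ?_
  rw [Finset.card_product, Finset.card_univ, Fintype.card_finset, Fintype.card_fin]
  exact Nat.mul_le_mul_right _ (D.card_Tr x)

omit [Fintype κ] in
lemma F_smooth (c : Sh ty m × Fin m) : ContDiff ℝ ∞ (D.F τ r c) :=
  (FF_smooth c).comp (D.ff_smooth _)

omit [Fintype κ] in
lemma F_deriv (c : Sh ty m × Fin m) (v : Fin m → ℝ) : fderiv ℝ (D.F τ r c) x v =
    fderiv ℝ (FF τ r 1 c) (D.ff c.1.1.1 1 x) (fderiv ℝ (D.ff c.1.1.1 1) x v) :=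
  congr($(fderiv_comp x ((FF_smooth c).differentiable (by simp) _)
    ((D.ff_smooth c.1.1.1).differentiable (by simp) x)) v)

theorem norm_bound {C : ℝ≥0} (hC : ∀ b, LipschitzWith C (W b)) (hr : 0 < r) {v : Fin m → ℝ} {β : ℝ}
    (hβ : ∀ i, ‖fderiv ℝ (D.ff i 1) x v‖ ≤ β) :
    ∑ c : Sh ty m × Fin m, (fderiv ℝ (D.F τ r c) x v) ^ 2 ≤
      (n * 2 ^ m * m * (m * (C * Real.pi / r)) * β) ^ 2 := by
  classical
  have hp := Real.pi_pos
  obtain ⟨b, hb⟩ : ∃ b, b = (m * (C * Real.pi / r) * β) ^ 2 := ⟨_, rfl⟩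
  have hb0 : 0 ≤ b := hb ▸ sq_nonneg _
  have h2 : ∀ q : Sh ty m, ∑ t, (fderiv ℝ (D.F τ r (q, t)) x v) ^ 2 ≤
      if D.Tr q.1.1 x then m * b else 0 := fun q => by
    split_ifs with h
    · refine (Finset.sum_le_card_nsmul _ _ b fun j _ => ?_).trans (by simp)
      rw [← sq_abs, hb, F_deriv]
      refine pow_le_pow_left₀ (abs_nonneg _) ((FF_deriv hC hr zero_le_one _ _).trans ?_) 2
      rw [one_mul]
      exact mul_le_mul_of_nonneg_left (hβ _) (by positivity)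
    · exact (Finset.sum_eq_zero fun t _ => by simp [F_deriv, D.deep_deriv h]).le
  rw [Fintype.sum_prod_type]
  refine (Finset.sum_le_sum fun q _ => h2 q).trans ?_
  rw [← Finset.sum_filter, Finset.sum_const, nsmul_eq_mul]
  have h3 : ((Finset.univ.filter fun q : Sh ty m => D.Tr q.1.1 x).card : ℝ) ≤ n * 2 ^ m := by
    exact_mod_cast D.card_sh x
  have h4 : (n * 2 ^ m * m : ℝ) ≤ (n * 2 ^ m * m) ^ 2 := by
    exact_mod_cast Nat.le_self_pow two_ne_zero (n * 2 ^ m * m)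
  calc _ ≤ (n * 2 ^ m * m) * b := by rw [← mul_assoc]; gcongr
    _ ≤ (n * 2 ^ m * m) ^ 2 * b := by gcongr
    _ = _ := by rw [hb]; ring

theorem ess_bound {M : Type*} [EMetricSpace M] [MeasurableSpace M] [BorelSpace M]
    {e : M → (Fin m → ℝ)} (he : Continuous e) (hr : 0 < r) (hr1 : r ≤ 1)
    (hF : ∀ (c : Sh ty m × Fin m) x y, edist (D.F τ r c (e x)) (D.F τ r c (e y)) ≤ edist x y)
    {A : Set M} {k : ℕ} (hk : 0 < k) (hA : ∀ i θ, ∃ p ∈ A, D.ff i 1 (e p) - θ ∉ Wlt m k) :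
    ((Finset.univ.filter fun i => ty i = k).card : ℝ≥0∞) ≤ 2 ^ k * (n * 2 ^ m * μH[k] A) := by
  classical
  have : Nonempty (Fin k) := ⟨⟨0, hk⟩⟩
  have hm : ∀ q : Sh ty m, MeasurableSet {p | D.Tr q.1.1 (e p)} := fun q =>
    ((D.isOpen_Tr _).preimage he).measurableSet
  have h2 : ∑ q : Sh ty m, μH[k] ({p | D.Tr q.1.1 (e p)} ∩ A) ≤ n * 2 ^ m * μH[k] A := by
    have h1' : ∀ q : Sh ty m, μH[k] ({p | D.Tr q.1.1 (e p)} ∩ A) =
        ∫⁻ p in A, {p | D.Tr q.1.1 (e p)}.indicator 1 p ∂μH[k] := fun q => by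
      rw [lintegral_indicator_one (hm q), Measure.restrict_apply (hm q)]
    simp_rw [h1']
    rw [← lintegral_finsetSum _ fun q _ => measurable_one.indicator (hm q), ← setLIntegral_const]
    refine lintegral_mono fun p => ?_
    simp only [indicator, mem_ofPred_eq, Pi.one_apply, Finset.sum_boole]
    exact_mod_cast D.card_sh (e p)
  have h3 : ∀ q : Sh ty m, ty q.1.1 = k → cube (Fin m) {a | ∃ p ∈ A,
      ∀ t ∈ q.1.2, |D.F τ r (q, t) (e p)| = 1 / 2 * a t} ≤
      2 ^ k * μH[k] ({p | D.Tr q.1.1 (e p)} ∩ A) := fun q hq => by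
    let T : Dir m k := ⟨q.1.2, q.2.trans hq⟩
    let f : M → Fin k → ℝ := fun p j => ((2 : ℝ≥0) : ℝ) • |D.F τ r (q, T.emb j) (e p)|
    have hf : LipschitzWith 2 f := fun p p' => edist_pi_le_iff.2 fun j => by
      refine (edist_smul_le _ _ _).trans ?_
      rw [NNReal.nnnorm_eq, ENNReal.smul_def, smul_eq_mul]
      gcongr
      refine le_trans ?_ (hF (q, T.emb j) p p')
      simpa using lipschitzWith_one_norm (D.F τ r (q, T.emb j) (e p)) (D.F τ r (q, T.emb j) (e p'))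
    have h4 := hf.hausdorffMeasure_image_le (d := k) (by positivity)
      ({p | D.Tr q.1.1 (e p)} ∩ A)
    have h5 := hausdorffMeasure_pi_real (ι := Fin k)
    rw [Fintype.card_fin] at h5
    rw [h5, ENNReal.rpow_natCast] at h4
    have h6 := (finite_range fun (l : Fin (n + 1)) (j : Fin k) =>
      ((2 : ℝ≥0) : ℝ) • |FF τ r 1 (q, T.emb j) (D.z l)|).measure_zero volume
    refine le_trans (measure_mono ?_) ((cube_proj_le T.emb _).trans ((measure_union_le _ _).trans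
      ((add_le_add h4 h6.le).trans_eq (add_zero _))))
    rintro a ⟨p, hp, a2⟩
    have e1 : f p = fun j => a (T.emb j) := funext fun j => by
      simp only [f, a2 _ (T.emb_mem j), smul_eq_mul, NNReal.coe_ofNat]
      ring
    by_cases h : D.Tr q.1.1 (e p)
    · exact Or.inl ⟨p, ⟨h, hp⟩, e1⟩
    · obtain ⟨l, hl⟩ := D.deep h
      refine Or.inr ⟨l, Eq.trans ?_ e1⟩
      simp only [f, F, hl.self_of_nhds]
  have h4 : ∀ i, ty i = k → 1 ≤ ∑ q : Sh ty m with q.1.1 = i,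
      2 ^ k * μH[k] ({p | D.Tr q.1.1 (e p)} ∩ A) := fun i hi => by
    refine le_trans ?_ ((measure_biUnion_finset_le _ _).trans (Finset.sum_le_sum fun q hq =>
      h3 q ((Finset.mem_filter.1 hq).2 ▸ hi)))
    rw [← measure_univ (μ := cube (Fin m))]
    refine measure_mono_ae ((cube_ae _).mono fun a ha _ => ?_)
    obtain ⟨p, hp, h⟩ := hA i fun t => τ (i, t) + Real.arcsin (r * a t) / Real.pi
    obtain ⟨q, rfl, -, b3⟩ := hit (s := 1) hr hr1 zero_le_one ha (hi ▸ h)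
    exact mem_biUnion (x := q) (by simp) ⟨p, hp, b3⟩
  calc _ = ∑ i ∈ Finset.univ.filter fun i => ty i = k, (1 : ℝ≥0∞) := by simp
    _ ≤ ∑ i ∈ Finset.univ.filter fun i => ty i = k, ∑ q : Sh ty m with q.1.1 = i,
      2 ^ k * μH[k] ({p | D.Tr q.1.1 (e p)} ∩ A) :=
        Finset.sum_le_sum fun i hi => h4 i (Finset.mem_filter.1 hi).2
    _ ≤ ∑ i, ∑ q : Sh ty m with q.1.1 = i, 2 ^ k * μH[k] ({p | D.Tr q.1.1 (e p)} ∩ A) :=
        Finset.sum_le_sum_of_subset (Finset.filter_subset _ _)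
    _ = _ := Finset.sum_fiberwise _ _ _
    _ ≤ _ := by rw [← Finset.mul_sum]; gcongr

end Dat

end Pool.Agent.Lib.MP_d476f3_gt.Abs
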