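import Pool.Agent.Lib.MP_d476f3_gt.Abs.Fn

open Set Filter Topology
open scoped ContDiff NNReal

noncomputable section

namespace Pool.Agent.Lib.MP_d476f3_gt.Abs

variable {M : Type*} [TopologicalSpace M] {m : ℕ} {e : M → (Fin m → ℝ)}

/-- a smooth ambient model of a contraction -/
theorem exists_contraction [CompactSpace M] [T2Space M] (he : Continuous e)
    (hi : Function.Injective e) {V K : Set M} (hK : IsClosed K) (hKV : K ⊆ V)
    (hV : (⟨Subtype.val, continuous_subtype_val⟩ : C(V, M)).Nullhomotopic) :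
    ∃ (G : (Fin m → ℝ) × ℝ → (Fin m → ℝ)) (z : Fin m → ℝ), ContDiff ℝ ∞ G ∧ (∀ x, G (x, 0) = x) ∧
      (∀ x, G (x, 1) = z) ∧ ∀ p ∈ K, ∀ s ∈ Icc (0 : ℝ) 1, ∃ q : M, ‖G (e p, s) - e q‖ ≤ 1 := by
  obtain ⟨y, ⟨H⟩⟩ := hV
  have : CompactSpace K := isCompact_iff_compactSpace.1 hK.isCompact
  have h1 : IsClosedEmbedding fun z : K × unitInterval => (e z.1, (z.2 : ℝ)) :=
    Continuous.isClosedEmbedding (by fun_prop) fun z z' h =>
      Prod.ext (Subtype.ext (hi (congrArg Prod.fst h))) (Subtype.ext (congrArg Prod.snd h))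
  obtain ⟨g, hg⟩ := ContinuousMap.exists_extension' h1 (⟨fun z : K × unitInterval =>
    e (H (projIcc 0 1 zero_le_one (3 * (z.2 : ℝ) - 1), ⟨z.1, hKV z.1.2⟩)),
    he.comp (H.continuous.comp ((continuous_projIcc.comp (by fun_prop)).prodMk (by fun_prop)))⟩ :
      C(K × unitInterval, Fin m → ℝ))
  obtain ⟨P, hP, hP', -⟩ := g.continuous.exists_contDiff_approx ⊤ (ε := fun _ => 1)
    continuous_const fun _ => one_pos
  refine ⟨fun z => z.1 + Real.smoothTransition (3 * z.2) • (P z - z.1) +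
    Real.smoothTransition (3 * z.2 - 2) • (e y - P z), e y, ?_, fun x => ?_, fun x => ?_,
    fun p hp s hs => ?_⟩
  · exact (contDiff_fst.add ((Real.smoothTransition.contDiff.comp (by fun_prop)).smul
      (hP.sub contDiff_fst))).add ((Real.smoothTransition.contDiff.comp (by fun_prop)).smul
        (contDiff_const.sub hP))
  · simp [Real.smoothTransition.zero_of_nonpos]
  · simp only
    rw [Real.smoothTransition.one_of_one_le (by norm_num),
      Real.smoothTransition.one_of_one_le (by norm_num)]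
    simp
  have h2 : ‖P (e p, s) - e (H (projIcc 0 1 zero_le_one (3 * s - 1), ⟨p, hKV hp⟩))‖ ≤ 1 := by
    have := (hP' (e p, s)).le
    rwa [dist_eq_norm, show g (e p, s) = _ from congrFun hg (⟨p, hp⟩, ⟨s, hs⟩)] at this
  refine ⟨H (projIcc 0 1 zero_le_one (3 * s - 1), ⟨p, hKV hp⟩), ?_⟩
  have key : ∀ (c : ℝ) (w : Fin m → ℝ), 0 ≤ c → c ≤ 1 → ‖w‖ ≤ 1 → ‖c • w‖ ≤ 1 :=
    fun c w h0 h1 h2 => by
      rw [norm_smul, Real.norm_of_nonneg h0]
      exact mul_le_one₀ h1 (norm_nonneg _) h2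
  simp only
  rcases le_total (3 * s - 1) 0 with h | h
  · rw [projIcc_of_le_left _ h] at h2 ⊢
    have e0 : H (⟨0, left_mem_Icc.2 zero_le_one⟩, ⟨p, hKV hp⟩) = p := H.apply_zero _
    rw [e0] at h2 ⊢
    rw [Real.smoothTransition.zero_of_nonpos (x := 3 * s - 2) (by linarith), zero_smul, add_zero,
      add_sub_cancel_left]
    exact key _ _ (Real.smoothTransition.nonneg _) (Real.smoothTransition.le_one _) h2
  rw [Real.smoothTransition.one_of_one_le (x := 3 * s) (by linarith), one_smul, add_sub_cancel]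
  rcases le_total (3 * s - 1) 1 with h' | h'
  · rwa [Real.smoothTransition.zero_of_nonpos (x := 3 * s - 2) (by linarith), zero_smul, add_zero]
  · rw [projIcc_of_right_le _ h'] at h2 ⊢
    have e1 : H (⟨1, right_mem_Icc.2 zero_le_one⟩, ⟨p, hKV hp⟩) = y := H.apply_one _
    rw [e1] at h2 ⊢
    rw [show P (e p, s) + Real.smoothTransition (3 * s - 2) • (e y - P (e p, s)) - e y =
      (1 - Real.smoothTransition (3 * s - 2)) • (P (e p, s) - e y) by module]
    exact key _ _ (sub_nonneg.2 (Real.smoothTransition.le_one _))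
      (sub_le_self _ (Real.smoothTransition.nonneg _)) h2

/-- smooth coordinates whose unit cubes are subordinate to a cover -/
theorem exists_coords [CompactSpace M] (he : Continuous e) (hi : Function.Injective e) {n : ℕ}
    (V : Fin (n + 1) → Set M) (hV : ∀ j, IsOpen (V j)) (hc : ⋃ j, V j = univ) :
    ∃ (φ : (Fin m → ℝ) → (Fin n → ℝ)) (K : Fin (n + 1) → Set M), ContDiff ℝ ∞ φ ∧
      (∀ j, IsClosed (K j) ∧ K j ⊆ V j) ∧
      ∀ p : M, ∃ j, ∀ q : M, ‖φ (e q) - φ (e p)‖ ≤ 1 → q ∈ K j := by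
  choose w hw hw' hw'' using fun j =>
    ((hV j).isClosed_compl.isCompact.image he).isClosed.isOpen_compl.exists_contDiff_support_eq
      (n := ⊤)
  have hw0 : ∀ j x, 0 ≤ w j x := fun j x => (hw'' j (mem_range_self x)).1
  have hpos : ∀ x, 0 < ∑ j, w j x := fun x => by
    refine Finset.sum_pos' (fun j _ => hw0 _ _) ?_
    by_contra! h
    have h1 : ∀ j, x ∈ e '' (V j)ᶜ := fun j => by
      by_contra h2
      have : x ∈ (w j).support := by rwa [hw j]
      exact this ((h j (Finset.mem_univ _)).antisymm (hw0 _ _))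
    obtain ⟨p, -, rfl⟩ := h1 0
    obtain ⟨j, hj⟩ := mem_iUnion.1 (hc ▸ mem_univ p : p ∈ ⋃ j, V j)
    obtain ⟨q, hq, h2⟩ := h1 j
    exact hq (hi h2 ▸ hj)
  let ψ : Fin (n + 1) → (Fin m → ℝ) → ℝ := fun j x => w j x / ∑ j, w j x
  have hψ : ∀ j, ContDiff ℝ ∞ (ψ j) := fun j =>
    (hw' j).div (ContDiff.sum fun j _ => hw' j) fun x => (hpos x).ne'
  have hs : ∀ x, ∑ j, ψ j x = 1 := fun x => by
    simp only [ψ]
    rw [← Finset.sum_div, div_self (hpos x).ne']
  have n0 : (0 : ℝ) < n + 1 := by positivity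
  refine ⟨fun x a => 2 * (n + 1) ^ 2 * ψ a.succ x, fun j => {p | 1 ≤ 2 * (n + 1) * ψ j (e p)},
    contDiff_pi.2 fun a => contDiff_const.mul (hψ _), fun j => ⟨isClosed_le continuous_const
      (continuous_const.mul ((hψ j).continuous.comp he)), fun p hp => ?_⟩, fun p => ?_⟩
  · by_contra h
    have : e p ∉ (w j).support := by
      rw [hw j]
      exact fun h' => h' ⟨p, h, rfl⟩
    have h0 : w j (e p) = 0 := by simpa using this
    simp only [mem_ofPred_eq, ψ, h0, zero_div, mul_zero] at hp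
    linarith
  obtain ⟨j, -, hj⟩ := Finset.exists_le_of_sum_le (s := Finset.univ) Finset.univ_nonempty
    (f := fun _ : Fin (n + 1) => 1 / ((n : ℝ) + 1)) (g := fun j => ψ j (e p)) (by
      rw [hs]; simp; field_simp; rfl)
  refine ⟨j, fun q hq => ?_⟩
  have h1 : ∀ a : Fin n, |2 * ((n : ℝ) + 1) ^ 2 * (ψ a.succ (e q) - ψ a.succ (e p))| ≤ 1 :=
    fun a => by
      rw [mul_sub]
      exact (norm_le_pi_norm _ a).trans hq
  have h2 : -(n + 1 : ℝ) ≤ 2 * ((n : ℝ) + 1) ^ 2 * (ψ j (e q) - ψ j (e p)) := by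
    refine Fin.cases ?_ (fun a => ?_) j
    · have a1 := hs (e q)
      have a2 := hs (e p)
      rw [Fin.sum_univ_succ] at a1 a2
      have a3 := Finset.sum_le_card_nsmul Finset.univ _ 1 fun a _ => (abs_le.1 (h1 a)).2
      rw [← Finset.mul_sum, Finset.sum_sub_distrib] at a3
      simp only [Finset.card_univ, Fintype.card_fin, nsmul_eq_mul, mul_one] at a3
      rw [show ψ 0 (e q) - ψ 0 (e p) = -(∑ a : Fin n, ψ a.succ (e q) - ∑ a : Fin n, ψ a.succ (e p))
        by linarith]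
      linarith
    · linarith [(abs_le.1 (h1 a)).1, Nat.cast_nonneg (α := ℝ) n]
  rw [div_le_iff₀ n0] at hj
  change 1 ≤ 2 * (n + 1) * ψ j (e q)
  refine le_of_mul_le_mul_left ?_ n0
  nlinarith

end Pool.Agent.Lib.MP_d476f3_gt.Abs
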