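import Pool.Agent.Lib.MP_d476f3_gt.Abs.Nerve

open Set Filter Topology

noncomputable section

namespace Pool.Agent.Lib.MP_d476f3_gt.Abs

theorem factor_of_Wlt {M : Type*} [TopologicalSpace M] {m k : ℕ} {e : M → (Fin m → ℝ)}
    {r : (Fin m → ℝ) → M} {O : Set (Fin m → ℝ)} (he : Continuous e)
    (hK : Bornology.IsBounded (range e)) (hr : ContinuousOn r O)
    (hthick : ∀ (p : M) (z : Fin m → ℝ), ‖z - e p‖ ≤ 1 → z ∈ O)
    (θ : Fin m → ℝ) {A : Set M} (hA : ∀ p ∈ A, e p - θ ∈ Wlt m k) (f : C(A, M))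
    (hf : ∀ p, f p = r (e p)) :
    ∃ (n : ℕ) (F : Set (Finset (Fin n))), (∀ s ∈ F, s.card ≤ k) ∧
      ∃ (φ : C(A, Cx F)) (ψ : C(Cx F, M)), (ψ.comp φ).Homotopic f := by
  classical
  have hB : Bornology.IsBounded ((fun x => x - θ) '' range e) :=
    (LipschitzWith.of_dist_le_mul (K := 1) fun x y => by simp).isBounded_image hK
  have hfin : {p : Finset (Fin m) × (Fin m → ℤ) | p.1.card < k ∧
      (piece p.1 p.2 ∩ (fun x => x - θ) '' range e).Nonempty}.Finite :=
    (finite_pieces hB).subset fun p hp => hp.2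
  obtain ⟨n, P, hPi, hP⟩ := hfin.fin_param
  have hP1 : ∀ q, (P q).1.card < k := fun q => (hP ▸ mem_range_self q : P q ∈ {p | _}).1
  choose w hw hw' hw'' using fun q : Fin n =>
    (isOpen_piece (P q).1 (P q).2).exists_contDiff_support_eq (n := 0)
  have hwc : ∀ q, Continuous (w q) := fun q => (hw' q).continuous
  have hw0 : ∀ q x, 0 ≤ w q x := fun q x => (hw'' q (mem_range_self x)).1
  have hwm : ∀ q x, w q x ≠ 0 ↔ x ∈ piece (P q).1 (P q).2 := fun q x => by
    rw [← hw q]; rfl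
  have hpos : ∀ p : A, 0 < ∑ q, w q (e p - θ) := fun p => by
    have : (intc (e p - θ), fun t => ⌊(e p - θ) t⌋) ∈ range P := by
      rw [hP]
      exact ⟨hA p p.2, _, mem_piece_intc _, _, mem_range_self _, rfl⟩
    obtain ⟨q, hq⟩ := this
    refine Finset.sum_pos' (fun q _ => hw0 _ _) ⟨q, Finset.mem_univ _,
      (hw0 _ _).lt_of_ne' ((hwm _ _).2 ?_)⟩
    rw [hq]
    exact mem_piece_intc _
  let F : Set (Finset (Fin n)) :=
    {s | s.card ≤ k ∧ ∃ p : M, ∀ q ∈ s, e p - θ ∈ piece (P q).1 (P q).2}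
  let c : Fin n → (Fin m → ℝ) := fun q t => (P q).2 t
  have hc : ∀ q x, x ∈ piece (P q).1 (P q).2 → ‖c q - x‖ ≤ 1 := fun q x hx =>
    (pi_norm_le_iff_of_nonneg zero_le_one).2 fun t => by
      rw [Pi.sub_apply, Real.norm_eq_abs, abs_sub_comm]
      exact (piece_near hx t).le
  let y : A → Fin n → ℝ := fun p q => w q (e p - θ) / ∑ q, w q (e p - θ)
  have hyc : Continuous y := continuous_pi fun q =>
    ((hwc q).comp ((he.comp continuous_subtype_val).sub continuous_const)).div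
      (continuous_finsetSum _ fun q _ =>
        (hwc q).comp ((he.comp continuous_subtype_val).sub continuous_const)) fun p => (hpos p).ne'
  have hy1 : ∀ p, y p ∈ stdSimplex ℝ (Fin n) := fun p =>
    ⟨fun q => div_nonneg (hw0 _ _) (hpos p).le, by
      simp only [y]
      rw [← Finset.sum_div, div_self (hpos p).ne']⟩
  have hy2 : ∀ p q, y p q ≠ 0 → e p - θ ∈ piece (P q).1 (P q).2 := fun p q h =>
    (hwm _ _).1 fun h0 => h (by simp [y, h0])
  have hy3 : ∀ p, y p ∈ Cx F := fun p => by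
    refine ⟨hy1 p, Finset.univ.filter fun q => e p - θ ∈ piece (P q).1 (P q).2,
      ⟨?_, p, fun q hq => (Finset.mem_filter.1 hq).2⟩, fun q hq => ?_⟩
    · refine (Finset.card_le_card_of_injOn (t := Finset.range k) (fun q => (P q).1.card)
        (fun q _ => by simpa using hP1 q) fun q hq q' hq' h => hPi ?_).trans (by simp)
      have := piece_unique h (Finset.mem_filter.1 hq).2 (Finset.mem_filter.1 hq').2
      exact Prod.ext this.1 this.2
    · by_contra h
      exact hq (Finset.mem_filter.2 ⟨Finset.mem_univ _, hy2 p q h⟩)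
  have hnear : ∀ (p : M) (z : Fin n → ℝ), z ∈ stdSimplex ℝ (Fin n) →
      (∀ q, z q ≠ 0 → e p - θ ∈ piece (P q).1 (P q).2) → ‖θ + ∑ q, z q • c q - e p‖ ≤ 1 :=
    fun p z h1 h2 => by
      have := comb_near c h1 (x := e p - θ) fun q hq => hc q _ (h2 q hq)
      rwa [show ∑ q, z q • c q - (e p - θ) = θ + ∑ q, z q • c q - e p by abel] at this
  have hψ : Continuous fun z : Cx F => r (θ + ∑ q, z.1 q • c q) := by
    refine hr.comp_continuous (continuous_const.add (continuous_finsetSum _ fun q _ =>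
      ((continuous_apply q).comp continuous_subtype_val).smul continuous_const)) fun z => ?_
    obtain ⟨h1, s, ⟨-, p, hp⟩, hs⟩ := z.2
    exact hthick p _ (hnear p _ h1 fun q hq => hp q (by_contra fun h => hq (hs q h)))
  refine ⟨n, F, fun s hs => hs.1, ⟨fun p => ⟨y p, hy3 p⟩, hyc.subtype_mk _⟩, ⟨_, hψ⟩, ⟨⟨⟨fun z =>
    r ((θ + ∑ q, y z.2 q • c q) + (z.1 : ℝ) • (e z.2 - (θ + ∑ q, y z.2 q • c q))), ?_⟩,
      fun p => by simp, fun p => by simp [hf]⟩⟩⟩
  refine hr.comp_continuous (by fun_prop) fun z => hthick z.2 _ ?_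
  have h1 := hnear z.2 _ (hy1 z.2) (hy2 z.2)
  generalize θ + ∑ q, y z.2 q • c q = u at h1 ⊢
  rw [show u + (z.1 : ℝ) • (e z.2 - u) - e z.2 = (1 - (z.1 : ℝ)) • (u - e z.2) by module, norm_smul,
    Real.norm_of_nonneg (sub_nonneg.2 z.1.2.2)]
  nlinarith [z.1.2.1, z.1.2.2, norm_nonneg (u - e z.2)]

theorem inessential_of_family {M : Type*} [TopologicalSpace M] [CompactSpace M] {m k : ℕ}
    {e : M → (Fin m → ℝ)} {r : (Fin m → ℝ) → M}
    (hr : ContinuousOn r (Metric.thickening 10 (range e))) (hre : ∀ p, r (e p) = p)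
    {h : ℝ × M → (Fin m → ℝ)} (hc : Continuous h) (h0 : ∀ p, h (0, p) = e p)
    (hn : ∀ u ∈ Icc (0 : ℝ) 1, ∀ p, ∃ q, ‖h (u, p) - e q‖ ≤ 1)
    (θ : Fin m → ℝ) {A : Set M} (hA : ∀ p ∈ A, h (1, p) - θ ∈ Wlt m k) : Inessential k A := by
  have h1 : ∀ u ∈ Icc (0 : ℝ) 1, ∀ (p : M) (z : Fin m → ℝ), ‖z - h (u, p)‖ ≤ 1 →
      z ∈ Metric.thickening 10 (range e) := fun u hu p z hz => by
    obtain ⟨q, hq⟩ := hn u hu p
    refine Metric.mem_thickening_iff.2 ⟨e q, mem_range_self q, ?_⟩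
    rw [dist_eq_norm]
    linarith [norm_sub_le_norm_sub_add_norm_sub z (h (u, p)) (e q)]
  have h2 : Continuous fun z : unitInterval × A => r (h (1 - z.1, z.2)) :=
    hr.comp_continuous (by fun_prop) fun z =>
      h1 _ ⟨sub_nonneg.2 z.1.2.2, sub_le_self _ z.1.2.1⟩ z.2 _ (by simp)
  have h3 : Continuous fun p : M => h (1, p) := by fun_prop
  obtain ⟨n, F, hF, φ, ψ, H⟩ := factor_of_Wlt h3 (isCompact_range h3).isBounded hr
    (h1 1 (right_mem_Icc.2 zero_le_one)) θ hA ⟨fun p => r (h (1, p)), hr.comp_continuous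
      (by fun_prop) fun p => h1 1 (right_mem_Icc.2 zero_le_one) p _ (by simp)⟩ fun _ => rfl
  exact ⟨n, F, hF, φ, ψ, H.trans ⟨⟨⟨_, h2⟩, fun p => by simp, fun p => by simp [h0, hre]⟩⟩⟩

end Pool.Agent.Lib.MP_d476f3_gt.Abs
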