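import Pool.Agent.Lib.MP_d476f3_gt.Riem

open Set MeasureTheory Bundle Filter Manifold
open scoped Manifold ContDiff ENNReal NNReal Topology

noncomputable section

namespace Pool.Agent.Lib.MP_d476f3_gt.Abs

lemma exists_adapted {d a : ℕ} (l : EuclideanSpace ℝ (Fin d) →ₗ[ℝ] (Fin a → ℝ)) :
    ∃ (b : OrthonormalBasis (Fin d) ℝ (EuclideanSpace ℝ (Fin d))) (s : Finset (Fin d)),
      s.card ≤ a ∧ ∀ i, i ∉ s → l (b i) = 0 := by
  have h1 := l.finrank_range_add_finrank_ker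
  have h2 : Module.finrank ℝ (LinearMap.range l) ≤ a := by
    simpa using Submodule.finrank_le (LinearMap.range l)
  rw [finrank_euclideanSpace_fin] at h1
  let w := stdOrthonormalBasis ℝ (LinearMap.ker l)
  let v : Fin d → EuclideanSpace ℝ (Fin d) := fun i =>
    if h : (i : ℕ) < Module.finrank ℝ (LinearMap.ker l) then (w ⟨i, h⟩ : _) else 0
  have hv : Orthonormal ℝ
      (Set.domRestrict {i : Fin d | (i : ℕ) < Module.finrank ℝ (LinearMap.ker l)} v) := by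
    have := (w.orthonormal.comp_linearIsometry (LinearMap.ker l).subtypeₗᵢ).comp
      (fun i : {i : Fin d | (i : ℕ) < Module.finrank ℝ (LinearMap.ker l)} => ⟨i.1, i.2⟩)
      fun i j h => Subtype.ext (Fin.ext (Fin.mk.inj h))
    refine (congrArg _ (funext fun i => ?_)).mp this
    have h : ((i : Fin d) : ℕ) < Module.finrank ℝ (LinearMap.ker l) := i.2
    change _ = v i
    simp only [v, dif_pos h]
    rfl
  obtain ⟨b, hb⟩ := hv.exists_orthonormalBasis_extension_of_card_eq (by simp)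
  refine ⟨b, Finset.univ.filter fun i => Module.finrank ℝ (LinearMap.ker l) ≤ i, ?_, fun i hi => ?_⟩
  · refine (Finset.card_le_card_of_injOn (t := Finset.Ico (Module.finrank ℝ (LinearMap.ker l)) d)
      Fin.val (fun i hi => ?_) fun i _ j _ h => Fin.ext h).trans (by rw [Nat.card_Ico]; omega)
    exact Finset.mem_coe.2 (Finset.mem_Ico.2 ⟨by simpa using hi, i.2⟩)
  · have h : (i : ℕ) < Module.finrank ℝ (LinearMap.ker l) := by simpa using hi
    rw [hb i h]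
    simp only [v, dif_pos h]
    exact (w ⟨i, h⟩).2

section
variable {n m a : ℕ} {M : Type*} [TopologicalSpace M]
  [ChartedSpace (EuclideanSpace ℝ (Fin (n + 1))) M] [IsManifold (𝓡 (n + 1)) ∞ M] [T2Space M]
  [CompactSpace M]

/-- The volume bound for a subset. -/
def catP (a : ℕ) {M : Type*} [TopologicalSpace M] [ChartedSpace (EuclideanSpace ℝ (Fin (n + 1))) M]
    [IsManifold (𝓡 (n + 1)) ∞ M] [T2Space M] [CompactSpace M] (e : M → (Fin m → ℝ))
    (K : Set M) : Prop :=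
  ∃ (lam : Measure (Fin m → ℝ)) (C : ℝ≥0), IsFiniteMeasure lam ∧
    ∀ (W : Type) [NormedAddCommGroup W] [InnerProductSpace ℝ W] (Φ : (Fin m → ℝ) → W),
    ContDiff ℝ ∞ Φ → ∀ A, IsOpen A → ∀ L q L' η : ℝ≥0, 0 < L → 1 ≤ q → 0 < L' → 0 < η →
    (∀ p, e p ∈ A → (∀ v, ‖fderiv ℝ Φ (e p) v‖ ≤ q * L * ‖v‖) ∧
      ∃ l : (Fin m → ℝ) →ₗ[ℝ] (Fin a → ℝ), ∀ v, l v = 0 → ‖fderiv ℝ Φ (e p) v‖ ≤ L * ‖v‖) →
    (∀ p v, ‖fderiv ℝ Φ (e p) v‖ ≤ L' * ‖v‖) →
    (∀ p, e p ∉ A → ∀ j : EuclideanSpace ℝ (Fin (n + 1)) →ₗ[ℝ] (Fin m → ℝ),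
      ∃ ξ, ξ ≠ 0 ∧ ‖fderiv ℝ Φ (e p) (j ξ)‖ ≤ η * ‖j ξ‖) →
    ∀ g : RMetric (n + 1) M, riem_Pull g (Φ ∘ e) →
      vol g (n + 1) K ≤ C * ((L : ℝ≥0∞) ^ (n + 1) * q ^ a * lam A + L' ^ n * η)

theorem cat_nhds {e : M → (Fin m → ℝ)} (he : ContMDiff (𝓡 (n + 1)) 𝓘(ℝ, Fin m → ℝ) ∞ e) (p : M) :
    ∃ K ∈ 𝓝 p, catP (n := n) a e K := by
  have hu := riem_chart he p
  set k := chartAt (EuclideanSpace ℝ (Fin (n + 1))) p with hk
  obtain ⟨T, T1, T2, T3⟩ := local_compact_nhds (k.open_target.mem_nhds (mem_chart_target _ p))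
  obtain ⟨C0, hC⟩ := T3.exists_bound_of_continuousOn
    ((hu.continuousOn_fderiv_of_isOpen k.open_target (by simp)).mono T2)
  obtain ⟨C, hC⟩ : ∃ C : ℝ≥0, ∀ y ∈ T, ∀ v, ‖v‖ = 1 → ‖fderiv ℝ (e ∘ k.symm) y v‖ < C :=
    ⟨C0.toNNReal + 1, fun y hy v hv => ((ContinuousLinearMap.le_opNorm _ _).trans
      (by rw [hv, mul_one]; exact (hC y hy).trans (Real.le_coe_toNNReal _))).trans_lt (lt_add_one _)⟩
  have hT := T3.measurableSet
  have hV := T3.measure_lt_top (μ := volume)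
  have := isFiniteMeasure_restrict.2 hV.ne
  refine ⟨k.symm '' T, k.symm.image_mem_nhds (mem_chart_target _ p) T1 |> fun h => by
    simpa [hk] using h, (volume.restrict T).map (e ∘ k.symm),
    ((n + 1) * C) ^ (n + 1) * (1 + (volume T).toNNReal), inferInstance,
    fun W _ _ Φ hΦ A hA L q L' η L0 q1 L0' η0 h1 h2 h3 g hg => ?_⟩
  have hG := hΦ.contMDiff.comp he
  have hd : ∀ y ∈ T, ∀ v, fderiv ℝ ((Φ ∘ e) ∘ k.symm) y v =
      fderiv ℝ Φ (e (k.symm y)) (fderiv ℝ (e ∘ k.symm) y v) := fun y hy v => by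
    rw [Function.comp_assoc, fderiv_comp y (hΦ.differentiable (by simp) _)
      ((hu.contDiffAt (k.open_target.mem_nhds (T2 hy))).differentiableAt (by simp))]
    rfl
  have hO := (hu.continuousOn.isOpen_inter_preimage k.open_target hA).measurableSet
  letI : EMetricSpace M := rdist g
  letI : MeasurableSpace M := borel M
  haveI : BorelSpace M := ⟨rfl⟩
  have a1 := riem_glue volume (μHE[n + 1]) k.symm (hT.inter hO)
    (b := (((n + 1) * (L * C)) ^ (n + 1) * q ^ a : ℝ≥0)) fun y hy => by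
    obtain ⟨h4, l, h5⟩ := h1 _ hy.2.2
    obtain ⟨b, s, hs, hb⟩ := exists_adapted (l ∘ₗ (fderiv ℝ (e ∘ k.symm) y).toLinearMap)
    obtain ⟨U, hU, hU'⟩ := riem_local n.succ_pos hG hg p (T2 hy.1) b
      (c := fun i => (if i ∈ s then q else 1) * (L * C)) fun i => by
        rw [hd y hy.1]
        have h6 := mul_lt_mul_of_pos_left (hC y hy.1 _ (b.norm_eq_one i)) (show (0 : ℝ) < L from L0)
        split_ifs with hi
        · refine (h4 _).trans_lt ?_
          rw [mul_assoc]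
          exact mul_lt_mul_of_pos_left h6 (show (0 : ℝ) < q from zero_lt_one.trans_le q1)
        · rw [one_mul]
          exact (h5 _ (hb i hi)).trans_lt h6
    refine ⟨U, hU, fun B hB => (hU' B hB).trans (mul_le_mul_left (ENNReal.coe_le_coe.2 ?_) _)⟩
    simp_rw [mul_left_comm _ (ite _ _ _)]
    rw [Finset.prod_mul_distrib, Finset.prod_ite_mem, Finset.univ_inter, Finset.prod_const,
      Finset.prod_const, Finset.card_univ, Fintype.card_fin, mul_comm]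
    push_cast
    exact mul_le_mul_right (pow_le_pow_right₀ q1 hs) _
  have a2 := riem_glue volume (μHE[n + 1]) k.symm (hT.diff hO) fun y hy => by
    obtain ⟨ξ, h4, h5⟩ := h3 (k.symm y) (fun h => hy.2 ⟨T2 hy.1, h⟩) (fderiv ℝ (e ∘ k.symm) y)
    obtain ⟨b, hb⟩ := Orthonormal.exists_orthonormalBasis_extension_of_card_eq (𝕜 := ℝ)
      (ι := Fin (n + 1)) (by simp) (v := fun _ => ‖ξ‖⁻¹ • ξ) (s := {0})
      (orthonormal_subsingleton_iff.2 fun _ => norm_smul_inv_norm h4)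
    refine riem_local n.succ_pos hG hg p (T2 hy.1) b (c := Fin.cons (η * C) fun _ => L' * C)
      fun i => ?_
    rw [hd y hy.1]
    have h6 := hC y hy.1 _ (b.norm_eq_one i)
    revert h6
    refine Fin.cases (fun h6 => ?_) (fun i h6 => ?_) i
    · refine lt_of_le_of_lt ?_ (mul_lt_mul_of_pos_left h6 η0)
      rw [hb 0 rfl, map_smul, map_smul, norm_smul, norm_smul, mul_left_comm]
      exact mul_le_mul_of_nonneg_left h5 (norm_nonneg _)
    · exact (h2 _ _).trans_lt (mul_lt_mul_of_pos_left h6 L0')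
  have a3 : volume (T ∩ (k.target ∩ (e ∘ k.symm) ⁻¹' A)) ≤
      (volume.restrict T).map (e ∘ k.symm) A :=
    (measure_mono fun y hy => mem_inter hy.2.2 hy.1).trans ((Measure.le_restrict_apply _ _).trans
      (Measure.le_map_apply ((hu.continuousOn.mono T2).aemeasurable hT) A))
  have a4 : volume (T \ (k.target ∩ (e ∘ k.symm) ⁻¹' A)) ≤ (volume T).toNNReal :=
    (measure_mono sdiff_subset).trans_eq (ENNReal.coe_toNNReal hV.ne).symm
  conv_lhs => rw [← inter_union_sdiff T (k.target ∩ (e ∘ k.symm) ⁻¹' A), image_union]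
  refine (measure_union_le (μ := μHE[n + 1]) _ _).trans ((add_le_add (a1.trans
    (mul_le_mul_right a3 _)) (a2.trans (mul_le_mul_right a4 _))).trans ?_)
  simp only [Fin.prod_univ_succ, Fin.cons_zero, Fin.cons_succ, Finset.prod_const, Finset.card_univ, Fintype.card_fin]
  push_cast
  generalize (volume.restrict T).map (e ∘ k.symm) A = x
  generalize ((volume T).toNNReal : ℝ≥0∞) = y
  simp only [mul_pow, Nat.succ_eq_add_one]
  generalize (n + 1 : ℝ≥0∞) = N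
  exact le_self_add.trans_eq (b := _ + ((N * C) ^ (n + 1) * (y * (L ^ (n + 1) * q ^ a * x)) +
    (N * C) ^ (n + 1) * (L' ^ n * η))) (by ring)

theorem cat_univ {e : M → (Fin m → ℝ)} (he : ContMDiff (𝓡 (n + 1)) 𝓘(ℝ, Fin m → ℝ) ∞ e) :
    catP (n := n) a e univ := by
  refine isCompact_univ.induction_on ⟨0, 0, inferInstance, ?_⟩ ?_ ?_
    fun p _ => by simpa using cat_nhds he p
  · intros; simp [vol]
  · rintro s t hst ⟨lam, C, h, h'⟩
    refine ⟨lam, C, h, fun W _ _ Φ hΦ A hA L q L' η L0 q1 L0' η0 h1 h2 h3 g hg =>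
      le_trans ?_ (h' W Φ hΦ A hA L q L' η L0 q1 L0' η0 h1 h2 h3 g hg)⟩
    exact measure_mono hst
  · rintro s t ⟨lam, C, h, h'⟩ ⟨lam', C', h'', h'''⟩
    refine ⟨lam + lam', C + C', inferInstance,
      fun W _ _ Φ hΦ A hA L q L' η L0 q1 L0' η0 h1 h2 h3 g hg => (measure_union_le _ _).trans
        ((add_le_add (h' W Φ hΦ A hA L q L' η L0 q1 L0' η0 h1 h2 h3 g hg)
          (h''' W Φ hΦ A hA L q L' η L0 q1 L0' η0 h1 h2 h3 g hg)).trans ?_)⟩
    rw [ENNReal.coe_add, add_mul, Measure.add_apply]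
    gcongr
    exacts [le_self_add, le_add_self]

end

theorem cat_pack (d m a : ℕ) (hd : 0 < d) (M : Type*) [TopologicalSpace M]
    [ChartedSpace (EuclideanSpace ℝ (Fin d)) M] [IsManifold (𝓡 d) ∞ M] [T2Space M]
    [CompactSpace M] (e : M → (Fin m → ℝ)) (he : ContMDiff (𝓡 d) 𝓘(ℝ, Fin m → ℝ) ∞ e)
    (hinj : ∀ x, Function.Injective (mfderiv (𝓡 d) 𝓘(ℝ, Fin m → ℝ) e x)) :
    ∃ (lam : Measure (Fin m → ℝ)) (C : ℝ≥0), IsFiniteMeasure lam ∧
      ∀ (ι : Type) [Fintype ι] (F : ι → (Fin m → ℝ) → ℝ), (∀ c, ContDiff ℝ ∞ (F c)) →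
      ∀ (A : Set (Fin m → ℝ)), IsOpen A → ∀ L q δ : ℝ≥0, 1 ≤ q → 0 < δ → δ ≤ 1 →
        (∀ p, e p ∈ A → (∀ v, ∑ c, (fderiv ℝ (F c) (e p) v) ^ 2 ≤ (q * L * ‖v‖) ^ 2) ∧
          ∃ l : (Fin m → ℝ) →ₗ[ℝ] (Fin a → ℝ), ∀ v, l v = 0 →
            ∑ c, (fderiv ℝ (F c) (e p) v) ^ 2 ≤ (L * ‖v‖) ^ 2) →
        (∀ p, e p ∉ A → ∀ j : EuclideanSpace ℝ (Fin d) →ₗ[ℝ] (Fin m → ℝ),
          ∃ ξ, ξ ≠ 0 ∧ ∀ c, fderiv ℝ (F c) (e p) (j ξ) = 0) →
        ∃ g : RMetric d M,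
          (∀ c x y, edist (F c (e x)) (F c (e y)) ≤ (rdist g).edist x y) ∧
          vol g d univ ≤ C * (((L : ℝ≥0∞) + 1) ^ d * q ^ a * lam A) + δ := by
  obtain ⟨n, rfl⟩ := Nat.exists_eq_add_one.2 hd
  obtain ⟨lam, C, h, hP⟩ := cat_univ (a := a) he
  refine ⟨lam, C, h, fun ι _ F hF A hA L q δ q1 δ0 δ1 h1 h2 => ?_⟩
  obtain ⟨B, hB⟩ := isCompact_univ.exists_bound_of_continuousOn
    (((riem_smooth hF 1).continuous_fderiv (by simp)).comp he.continuous).continuousOn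
  let L' : ℝ≥0 := B.toNNReal + 1
  let η : ℝ≥0 := (C * L' ^ n + 1)⁻¹ * δ
  have η0 : 0 < η := by positivity
  have η1 : (η : ℝ) ≤ 1 := by
    exact_mod_cast mul_le_one₀ (inv_le_one_of_one_le₀ (le_add_self (a := (1 : ℝ≥0)))) zero_le δ1
  have s0 : (0 : ℝ) < η / (m + 1) := by positivity
  have s1 : (η : ℝ) / (m + 1) ≤ 1 := (div_le_self η.2 (by simp)).trans η1
  have hs : ∀ v : Fin m → ℝ, ((η : ℝ) / (m + 1)) ^ 2 * ∑ i, v i ^ 2 ≤ (η * ‖v‖) ^ 2 := fun v => by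
    have : ∑ i, v i ^ 2 ≤ m * ‖v‖ ^ 2 := (Finset.sum_le_card_nsmul _ _ (‖v‖ ^ 2) fun i _ => by
      rw [← sq_abs]; exact pow_le_pow_left₀ (abs_nonneg _) (norm_le_pi_norm v i) 2).trans_eq
        (by simp)
    rw [div_pow, div_mul_eq_mul_div, div_le_iff₀ (by positivity), mul_pow, mul_assoc]
    refine mul_le_mul_of_nonneg_left (this.trans ?_) (sq_nonneg _)
    rw [mul_comm]
    exact mul_le_mul_of_nonneg_left (by nlinarith [Nat.cast_nonneg (α := ℝ) m]) (sq_nonneg _)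
  have hΦ := riem_smooth hF (η / (m + 1))
  have hN := riem_norm hF (η / (m + 1))
  obtain ⟨g, hg⟩ := riem_exists (hΦ.contMDiff.comp he) fun x =>
    (injective_iff_map_eq_zero _).2 fun v hv => (injective_iff_map_eq_zero _).1 (hinj x) v <| by
      have h3 := mfderiv_comp x (hΦ.contMDiff.mdifferentiableAt (by simp))
        ((he x).mdifferentiableAt (by simp))
      rw [mfderiv_eq_fderiv] at h3
      have h4 := hN (e x) (mfderiv (𝓡 (n + 1)) 𝓘(ℝ, Fin m → ℝ) e x v)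
      rw [show fderiv ℝ (riem_Phi F (η / (m + 1))) (e x)
        (mfderiv (𝓡 (n + 1)) 𝓘(ℝ, Fin m → ℝ) e x v) = 0 from
        congr($h3 v).symm.trans hv, norm_zero, eq_comm, zero_pow two_ne_zero,
        add_eq_zero_iff_of_nonneg (by positivity) (by positivity), mul_eq_zero,
        Finset.sum_eq_zero_iff_of_nonneg fun _ _ => sq_nonneg _] at h4
      exact funext fun i => pow_eq_zero_iff two_ne_zero |>.1
        (h4.1.resolve_left (by positivity) i (Finset.mem_univ _))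
  refine ⟨g, fun c x y => (PiLp.edist_apply_le (riem_Phi F (η / (m + 1)) (e x))
    (riem_Phi F (η / (m + 1)) (e y)) (.inr c)).trans (riem_lower (hΦ.contMDiff.comp he) hg x y),
    (hP _ _ hΦ A hA (L + 1) q L' η (by positivity) q1 (by positivity) η0 (fun p hp => ?_)
      (fun p v => ?_) (fun p hp j => ?_) g hg).trans ?_⟩
  · have key : ∀ (v : Fin m → ℝ) (B : ℝ), 0 ≤ B →
        ∑ c, (fderiv ℝ (F c) (e p) v) ^ 2 ≤ (B * ‖v‖) ^ 2 →
        ‖fderiv ℝ (riem_Phi F (η / (m + 1))) (e p) v‖ ≤ (B + 1) * ‖v‖ := fun v B hB h3 => by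
      refine abs_le_of_sq_le_sq' ?_ (by positivity) |>.2
      rw [hN]
      have := pow_le_pow_left₀ (by positivity) (mul_le_of_le_one_left (norm_nonneg v) η1) 2
      have : 0 ≤ B * ‖v‖ * ‖v‖ := by positivity
      nlinarith [hs v]
    obtain ⟨h3, l, h4⟩ := h1 p hp
    refine ⟨fun v => (key v _ (by positivity) (h3 v)).trans ?_, l, fun v hv => ?_⟩
    · push_cast
      have : (1 : ℝ) ≤ q := q1
      gcongr
      linarith
    · push_cast
      exact key v _ L.2 (h4 v hv)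
  · refine le_trans (abs_le_of_sq_le_sq' ?_ (norm_nonneg _)).2
      (((fderiv ℝ (riem_Phi F 1) (e p)).le_opNorm v).trans (mul_le_mul_of_nonneg_right
        ((hB p trivial).trans ((Real.le_coe_toNNReal B).trans (lt_add_one _).le)) (norm_nonneg _)))
    rw [hN, riem_norm hF]
    gcongr
  · obtain ⟨ξ, h3, h4⟩ := h2 p hp j
    refine ⟨ξ, h3, abs_le_of_sq_le_sq' ?_ (by positivity) |>.2⟩
    simpa [hN, h4] using hs (j ξ)
  · rw [mul_add]
    push_cast
    gcongr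
    have : C * (L' ^ n * η) ≤ δ := by
      rw [← mul_assoc, ← mul_assoc]
      exact mul_le_of_le_one_left zero_le (mul_inv_le_one_of_le₀ le_self_add zero_le)
    exact_mod_cast this

end Pool.Agent.Lib.MP_d476f3_gt.Abs
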