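import Pool.Agent.Lib.MP_d476f3_gt.Retract
import Pool.Agent.Lib.MP_d476f3_gt.Abs.CatFn
import Pool.Agent.Lib.MP_d476f3_gt.Abs.CatG
import Pool.Agent.Lib.MP_d476f3_gt.Abs.CatNerve
import Pool.Agent.Lib.MP_d476f3_gt.Abs.CatPack

open Set MeasureTheory Filter Topology
open scoped Manifold ContDiff ENNReal NNReal

noncomputable section

namespace Pool.Agent.Lib.MP_d476f3_gt.Abs

lemma sep_fin {N : ℕ} (hN : 0 < N) (a b : Fin N) (k : ℤ)
    (h : |((a : ℕ) : ℝ) / N - ((b : ℕ) : ℝ) / N - k| < 4 * (1 / (4 * N))) : a = b := by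
  have N0 : (0 : ℝ) < N := by exact_mod_cast hN
  have h1 : |((a : ℕ) : ℝ) - ((b : ℕ) + k * N)| < 1 := by
    rw [show ((a : ℕ) : ℝ) - ((b : ℕ) + k * N) = (((a : ℕ) : ℝ) / N - ((b : ℕ) : ℝ) / N - k) * N by
      field_simp; ring, abs_mul, abs_of_pos N0, ← lt_div_iff₀ N0]
    exact h.trans_eq (by field_simp)
  have h2 : ((a : ℕ) : ℤ) = (b : ℕ) + k * N := int_eq_of_abs (by push_cast; exact h1)
  have h3 := congrArg (· % (N : ℤ)) h2
  simp only [Int.add_mul_emod_self_right] at h3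
  rw [Int.emod_eq_of_lt (by positivity) (by exact_mod_cast a.2),
    Int.emod_eq_of_lt (by positivity) (by exact_mod_cast b.2)] at h3
  exact Fin.ext (by exact_mod_cast h3)

theorem cat_master (d : ℕ) (hd : 0 < d) (M : Type*) [TopologicalSpace M]
    [ChartedSpace (EuclideanSpace ℝ (Fin d)) M] [IsManifold (𝓡 d) ∞ M] [T2Space M]
    [CompactSpace M] [Nonempty M] (n : ℕ) (V : Fin (n + 1) → Set M) (hV : ∀ j, IsOpen (V j))
    (hcov : ⋃ j, V j = univ)
    (hN : ∀ j, (⟨Subtype.val, continuous_subtype_val⟩ : C(V j, M)).Nullhomotopic) :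
    ∃ C : ℝ≥0, ∀ T : ℝ≥0, 1 ≤ T → ∃ g : RMetric d M,
      (∀ k, 0 < k → k ≤ d → ∀ A : Set M, ¬ Inessential k A → (T : ℝ≥0∞) ≤ vol g k A) ∧
      vol g d univ ≤ (C * T ^ n : ℝ≥0) := by
  obtain ⟨m, e, R, he, hinj, hR, hRe⟩ := exists_retract d M
  have hei : Function.Injective e := Function.LeftInverse.injective hRe
  have hK := isCompact_range he.continuous
  obtain ⟨lam, C1, hlam, hmet⟩ := cat_pack d m n hd M e he hinj
  obtain ⟨C3, hC3⟩ := W_lip
  obtain ⟨φ, K, hφ, hKV, hlab⟩ := exists_coords he.continuous hei V hV hcov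
  choose G z hG G0 G1 hGn using fun j =>
    exists_contraction he.continuous hei (hKV j).1 (hKV j).2 (hN j)
  obtain ⟨B, hB⟩ : ∃ B : ℝ≥0, ∀ p j, ∀ s ∈ Icc (0 : ℝ) 1, ‖fderiv ℝ (G j) (e p, s)‖ ≤ B := by
    obtain ⟨B, hB⟩ := (hK.prod (isCompact_Icc (a := (0 : ℝ)) (b := 1))).exists_bound_of_continuousOn
      (f := fun w j => fderiv ℝ (G j) w)
      (continuous_pi fun j => (hG j).continuous_fderiv (by simp)).continuousOn
    exact ⟨B.toNNReal, fun p j s hs => (norm_le_pi_norm (fun j => fderiv ℝ (G j) (e p, s)) j).trans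
      ((hB _ ⟨mem_range_self p, hs⟩).trans (Real.le_coe_toNNReal _))⟩
  obtain ⟨B', hB'⟩ : ∃ B' : ℝ≥0, ∀ p, ‖fderiv ℝ φ (e p)‖ ≤ B' := by
    obtain ⟨B, hB⟩ := hK.exists_bound_of_continuousOn (hφ.continuous_fderiv (by simp)).continuousOn
    exact ⟨B.toNNReal, fun p => (hB _ (mem_range_self p)).trans (Real.le_coe_toNNReal _)⟩
  obtain ⟨ck, hck⟩ : ∃ ck : ℕ → ℝ≥0, ∀ k, ck k = Measure.addHaarScalarFactor
    (volume : Measure (EuclideanSpace ℝ (Fin k))) μH[(k : ℕ)] := ⟨_, fun _ => rfl⟩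
  have hck0 : ∀ k, 0 < ck k := fun k => pos_iff_ne_zero.2
    (hck k ▸ Measure.addHaarScalarFactor_volume_hausdorffMeasure_ne_zero _)
  obtain ⟨c, hc1, hc⟩ : ∃ c : ℝ≥0, 1 ≤ c ∧ ∀ k ≤ d, 2 ^ k * (n * 2 ^ m) ≤ c * ck k :=
    ⟨1 + ∑ k ∈ Finset.range (d + 1), 2 ^ k * (n * 2 ^ m) / ck k, le_self_add, fun k hk => by
      rw [← div_le_iff₀ (hck0 k)]
      exact (Finset.single_le_sum (f := fun k => 2 ^ k * (n * 2 ^ m) / ck k) (fun _ _ => zero_le)
        (Finset.mem_range.2 (Nat.lt_succ_of_le hk))).trans le_add_self⟩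
  obtain ⟨L, hL⟩ : ∃ L : ℝ≥0, L = n * 2 ^ m * m * (m * (C3 * NNReal.pi)) * B := ⟨_, rfl⟩
  obtain ⟨C4, hC4⟩ : ∃ C4 : ℝ≥0, C4 = n * (C3 * NNReal.pi * 4) * B' := ⟨_, rfl⟩
  refine ⟨C1 * ((L + 1) ^ d * (1 + C4 * (d * (2 * c))) ^ n * (lam univ).toNNReal) + 1,
    fun T hT => ?_⟩
  obtain ⟨N, N1, N2⟩ : ∃ N : ℕ, c * T ≤ N ∧ N ≤ 2 * c * T := ⟨⌈c * T⌉₊, Nat.le_ceil _,
    (Nat.ceil_lt_add_one zero_le).le.trans (by
      rw [mul_assoc, two_mul]
      gcongr
      exact one_le_mul hc1 hT)⟩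
  have N0 : 0 < d * N := Nat.mul_pos hd (by
    exact_mod_cast (zero_lt_one.trans_le (one_le_mul hc1 hT)).trans_le N1)
  have N0' : (0 : ℝ) < (d * N : ℕ) := by exact_mod_cast N0
  have hl : ∀ (s : ℝ) (w : Fin n → ℤ), ∃ j, ∀ p, (fun a => ⌊φ (e p) a - s⌋) = w → p ∈ K j :=
    fun s w => by
      by_cases h : ∃ p, (fun a => ⌊φ (e p) a - s⌋) = w
      · obtain ⟨p, rfl⟩ := h
        obtain ⟨j, hj⟩ := hlab p
        refine ⟨j, fun q hq => hj q ((pi_norm_le_iff_of_nonneg zero_le_one).2 fun a => ?_)⟩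
        simpa using (Int.abs_sub_lt_one_of_floor_eq_floor (congrFun hq a)).le
      · exact ⟨0, fun p hp => absurd ⟨p, hp⟩ h⟩
  choose lab hlab' using hl
  let D : Dat (Fin d × Fin N) m n :=
    { φ := φ, G := G, z := z, σ := fun i => (finProdFinEquiv i : ℕ) / (d * N : ℕ),
      lab := fun i => lab ((finProdFinEquiv i : ℕ) / (d * N : ℕ)), ρ := 1 / (4 * (d * N : ℕ)),
      hφ := hφ, hG := hG, G0 := G0, G1 := G1, hρ := by positivity,
      sep := fun i i' k h => finProdFinEquiv.injective (sep_fin N0 _ _ k h) }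
  let ty : Fin d × Fin N → ℕ := fun i => i.1 + 1
  have a1 : ∀ p v, ∑ c : Sh ty m × Fin m, (fderiv ℝ (D.F 0 1 c) (e p) v) ^ 2 ≤
      (((1 + C4 * (d * N : ℕ) : ℝ≥0) : ℝ) * L * ‖v‖) ^ 2 := fun p v => by
    refine (D.norm_bound hC3 one_pos (β := B * ((1 + C4 * (d * N : ℕ)) * ‖v‖))
      fun i => (D.ff_deriv hC3 (hB p) i v).trans
        (mul_le_mul_of_nonneg_left (max_le ?_ ?_) B.2)).trans_eq ?_
    · exact le_mul_of_one_le_left (norm_nonneg _) (le_add_of_nonneg_right (by positivity))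
    · have h1 := (fderiv ℝ φ (e p)).le_of_opNorm_le (hB' p) v
      have hp := Real.pi_pos
      calc _ ≤ n * (C3 * Real.pi / (1 / (4 * (d * N : ℕ)))) * (B' * ‖v‖) :=
            mul_le_mul_of_nonneg_left h1 (by positivity)
        _ = C4 * (d * N : ℕ) * ‖v‖ := by rw [hC4]; push_cast [NNReal.coe_real_pi]; field_simp
        _ ≤ _ := by gcongr; exact le_add_of_nonneg_left zero_le_one
    · rw [hL]; push_cast [NNReal.coe_real_pi]; ring
  have a2 : ∀ p v, fderiv ℝ D.φ (e p) v = 0 →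
      ∑ c : Sh ty m × Fin m, (fderiv ℝ (D.F 0 1 c) (e p) v) ^ 2 ≤ (L * ‖v‖) ^ 2 := fun p v hv => by
    refine (D.norm_bound hC3 one_pos (β := B * ‖v‖) fun i =>
      (D.ff_deriv hC3 (hB p) i v).trans_eq ?_).trans_eq ?_
    · rw [hv, norm_zero, mul_zero, max_eq_left (norm_nonneg _)]
    · rw [hL]; push_cast [NNReal.coe_real_pi]; ring
  obtain ⟨g, hg1, hg2⟩ := hmet (Sh ty m × Fin m) (D.F 0 1) D.F_smooth univ isOpen_univ L
    (1 + C4 * (d * N : ℕ)) 1 le_self_add one_pos le_rfl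
    (fun p _ => ⟨a1 p, (fderiv ℝ φ (e p)).toLinearMap, a2 p⟩) fun p hp => absurd (mem_univ _) hp
  refine ⟨g, fun k k0 k1 A hA => ?_, hg2.trans ?_⟩
  · let _ : EMetricSpace M := rdist g
    let _ : MeasurableSpace M := borel M
    have _ : BorelSpace M := ⟨rfl⟩
    change _ ≤ Measure.euclideanHausdorffMeasure k A
    rw [Measure.euclideanHausdorffMeasure_def, ← hck, Measure.smul_apply, ENNReal.smul_def,
      smul_eq_mul]
    have h2 := D.ess_bound he.continuous one_pos le_rfl hg1 (A := A) k0 fun i θ => by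
      by_contra! h
      refine hA (inessential_of_family hR hRe (h := fun w => D.ff i w.1 (e w.2))
        ((D.ff_cont i).comp (continuous_fst.prodMk (he.continuous.comp continuous_snd)))
        (fun p => by simp [Dat.ff, D.G0]) (fun u hu p => hGn _ p (hlab' _ _ p rfl) _
          ⟨mul_nonneg hu.1 (D.tm_mem i _).1, mul_le_one₀ hu.2 (D.tm_mem i _).1 (D.tm_mem i _).2⟩)
        θ h)
    have h0 : N ≤ (Finset.univ.filter fun i => ty i = k).card := by
      obtain ⟨k, rfl⟩ : ∃ j, k = j + 1 := ⟨k - 1, by omega⟩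
      refine le_trans (by simp) (Finset.card_le_card_of_injOn (s := Finset.univ)
        (fun a : Fin N => ((⟨k, k1⟩, a) : Fin d × Fin N)) (fun a _ => by simp [ty])
        fun a _ b _ h => congrArg Prod.snd h)
    have h3 : ((c * T : ℝ≥0) : ℝ≥0∞) ≤ _ :=
      le_trans (by exact_mod_cast N1.trans (Nat.cast_le.2 h0)) h2
    rcases eq_or_ne (μH[(k : ℕ)] A) ⊤ with h | h
    · rw [h, ENNReal.mul_top (by simpa using (hck0 k).ne')]
      exact le_top
    lift μH[(k : ℕ)] A to ℝ≥0 using h with x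
    have h4 : c * T ≤ 2 ^ k * (n * 2 ^ m * x) := by exact_mod_cast h3
    rw [← mul_assoc] at h4
    have h5 := h4.trans (mul_le_mul_left (hc k k1) x)
    rw [mul_assoc] at h5
    exact_mod_cast le_of_mul_le_mul_left h5 (zero_lt_one.trans_le hc1)
  · rw [← ENNReal.coe_toNNReal (measure_ne_top lam univ), ENNReal.toNNReal_coe]
    generalize (lam univ).toNNReal = y
    have h1 : 1 + C4 * (d * N : ℕ) ≤ (1 + C4 * (d * (2 * c))) * T := by
      rw [add_mul, one_mul, mul_assoc, mul_assoc]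
      push_cast
      gcongr
    have h2 : C1 * ((L + 1) ^ d * (1 + C4 * (d * N : ℕ)) ^ n * y) + 1 ≤
        (C1 * ((L + 1) ^ d * (1 + C4 * (d * (2 * c))) ^ n * y) + 1) * T ^ n := by
      calc _ ≤ C1 * ((L + 1) ^ d * ((1 + C4 * (d * (2 * c))) * T) ^ n * y) + T ^ n := by
            gcongr
            exact one_le_pow₀ hT
        _ = _ := by rw [mul_pow _ T]; ring
    exact_mod_cast h2

end Pool.Agent.Lib.MP_d476f3_gt.Abs
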