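import Mathlib

open Finset
open scoped NNReal

namespace Pool.Agent.Lib.MP_d476f3_gt.Abs

variable {κ : Type} [Fintype κ] [DecidableEq κ]

lemma card_type (ty : κ → ℕ) (μ : Multiset ℕ) :
    (univ.filter fun I : Finset κ => I.val.map ty = μ).card ≤
      (μ.map fun k => (univ.filter fun i => ty i = k).card).prod := by
  induction μ using Multiset.induction_on with
  | empty =>
    refine (card_le_one.2 fun I hI J hJ => ?_).trans (by simp)
    simp only [mem_filter, mem_univ, true_and, Multiset.map_eq_zero, val_eq_zero] at hI hJ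
    rw [hI, hJ]
  | cons a μ ih =>
    rw [Multiset.map_cons, Multiset.prod_cons]
    refine le_trans (card_le_card (t := ((univ.filter fun i => ty i = a) ×ˢ
      (univ.filter fun I : Finset κ => I.val.map ty = μ)).image fun p => insert p.1 p.2)
      fun I hI => ?_) (card_image_le.trans ?_)
    · have h := (mem_filter.1 hI).2
      have ha : a ∈ I.val.map ty := h ▸ Multiset.mem_cons_self a μ
      obtain ⟨i, hi, rfl⟩ := Multiset.mem_map.1 ha
      refine mem_image.2 ⟨(i, I.erase i), mem_product.2 ⟨by simp, mem_filter.2 ⟨mem_univ _, ?_⟩⟩,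
        insert_erase hi⟩
      rw [← Multiset.cons_erase hi, Multiset.map_cons, Multiset.cons_inj_right] at h
      simpa using h
    · rw [card_product]
      exact Nat.mul_le_mul_left _ ih

lemma card_sets (ty : κ → ℕ) (h1 : ∀ i, 0 < ty i) (d : ℕ) :
    (univ.filter fun I : Finset κ => ∑ i ∈ I, ty i ≤ d).card ≤
      ∑ j ∈ range (d + 1), ∑ p : Nat.Partition j,
        (p.parts.map fun k => (univ.filter fun i => ty i = k).card).prod := by
  refine le_trans (card_le_card (t := (range (d + 1)).biUnion fun j =>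
    (univ : Finset (Nat.Partition j)).biUnion fun p =>
      univ.filter fun I : Finset κ => I.val.map ty = p.parts) fun I hI => ?_)
    (card_biUnion_le.trans (sum_le_sum fun j _ => card_biUnion_le.trans
      (sum_le_sum fun p _ => card_type ty _)))
  refine mem_biUnion.2 ⟨∑ i ∈ I, ty i, mem_range.2 (Nat.lt_succ_of_le (mem_filter.1 hI).2),
    mem_biUnion.2 ⟨⟨I.val.map ty, fun h => ?_, rfl⟩, mem_univ _, by simp⟩⟩
  obtain ⟨i, -, rfl⟩ := Multiset.mem_map.1 h
  exact h1 i

/-- full patterns whose copies have total weight at most `d` -/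
def Adm (ty : κ → ℕ) (m d : ℕ) : Finset (Finset (κ × Fin m)) :=
  univ.filter fun π => π.card = d ∧ ∑ i ∈ π.image Prod.fst, ty i ≤ d

lemma card_Adm (ty : κ → ℕ) (h1 : ∀ i, 0 < ty i) (m d : ℕ) :
    (Adm ty m d).card ≤ (∑ j ∈ range (d + 1), ∑ p : Nat.Partition j,
        (p.parts.map fun k => (univ.filter fun i => ty i = k).card).prod) * 2 ^ (d * m) := by
  refine le_trans (card_le_card (t := (univ.filter fun I : Finset κ => ∑ i ∈ I, ty i ≤ d).biUnion
    fun I => (I ×ˢ (univ : Finset (Fin m))).powerset) fun π hπ => ?_)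
    ((card_biUnion_le_card_mul _ _ (2 ^ (d * m)) fun I hI => ?_).trans
      (Nat.mul_le_mul_right _ (card_sets ty h1 d)))
  · refine mem_biUnion.2 ⟨π.image Prod.fst, mem_filter.2 ⟨mem_univ _, (mem_filter.1 hπ).2.2⟩,
      mem_powerset.2 fun s hs => mem_product.2 ⟨mem_image_of_mem _ hs, mem_univ _⟩⟩
  · rw [card_powerset, card_product, card_univ, Fintype.card_fin]
    refine Nat.pow_le_pow_right two_pos (Nat.mul_le_mul_right _ (le_trans ?_ (mem_filter.1 hI).2))
    rw [card_eq_sum_ones]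
    exact sum_le_sum fun i _ => h1 i

/-- the normalised count -/
def Psi (d : ℕ) (u : ℕ → ℝ≥0) (s : ℝ≥0) : ℝ≥0 :=
  ∑ j ∈ range (d + 1), s ^ (d - j) * ∑ p : Nat.Partition j, (p.parts.map fun k => u k + s).prod

lemma continuous_Psi (d : ℕ) (u : ℕ → ℝ≥0) : Continuous (Psi d u) :=
  continuous_finsetSum _ fun _ _ => (continuous_pow _).mul (continuous_finsetSum _ fun p _ =>
    continuous_multiset_prod _ fun _ _ => continuous_const.add continuous_id)

lemma Psi_zero (d : ℕ) (u : ℕ → ℝ≥0) :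
    Psi d u 0 = ∑ p : Nat.Partition d, (p.parts.map u).prod := by
  rw [Psi, sum_range_succ, sum_eq_zero fun j hj => by
    rw [zero_pow (Nat.sub_ne_zero_of_lt (mem_range.1 hj)), zero_mul]]
  simp

lemma prod_scale (s : ℝ≥0) (a : ℕ → ℕ) (b : ℕ → ℝ≥0) (μ : Multiset ℕ)
    (h : ∀ k ∈ μ, s ^ k * a k ≤ b k) :
    s ^ μ.sum * ((μ.map a).prod : ℕ) ≤ (μ.map b).prod := by
  induction μ using Multiset.induction_on with
  | empty => simp
  | cons k μ ih =>
    simp only [Multiset.sum_cons, Multiset.map_cons, Multiset.prod_cons, Nat.cast_mul]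
    calc _ = (s ^ k * a k) * (s ^ μ.sum * ((μ.map a).prod : ℕ)) := by ring
      _ ≤ _ := mul_le_mul' (h k (Multiset.mem_cons_self _ _))
        (ih fun j hj => h j (Multiset.mem_cons_of_mem hj))

lemma count_le_Psi (d : ℕ) (u : ℕ → ℝ≥0) (s : ℝ≥0) (a : ℕ → ℕ)
    (h : ∀ k, 0 < k → s ^ k * a k ≤ u k + s) :
    s ^ d * ((∑ j ∈ range (d + 1), ∑ p : Nat.Partition j, (p.parts.map a).prod : ℕ) : ℝ≥0) ≤
      Psi d u s := by
  rw [Nat.cast_sum, mul_sum]
  refine sum_le_sum fun j hj => ?_
  rw [← Nat.sub_add_cancel (Nat.le_of_lt_succ (mem_range.1 hj)), pow_add, Nat.add_sub_cancel,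
    mul_assoc, Nat.cast_sum, mul_sum]
  refine mul_le_mul_right (sum_le_sum fun p _ => ?_) _
  have := prod_scale s a (fun k => u k + s) p.parts fun k hk => h k (p.parts_pos hk)
  rwa [p.parts_sum] at this

lemma prod_const_le (c : ℝ≥0) (hc : 1 ≤ c) (t : ℕ → ℝ≥0) {d : ℕ} (p : Nat.Partition d) :
    (p.parts.map fun k => c * t k).prod ≤ c ^ d * (p.parts.map t).prod := by
  rw [Multiset.prod_map_mul, Multiset.map_const', Multiset.prod_replicate]
  refine mul_le_mul_left (pow_le_pow_right₀ hc ?_) _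
  have := Multiset.card_nsmul_le_sum (s := p.parts) (a := 1) fun k hk => p.parts_pos hk
  simpa [p.parts_sum] using this

end Pool.Agent.Lib.MP_d476f3_gt.Abs
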