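import Pool.Agent.Lib.MP_d476f3_gt.Stmt

open Set
open scoped Manifold ContDiff ENNReal

noncomputable section

namespace Pool.Agent.Lib.MP_d476f3_gt.Abs

/-- the finite simplicial complex on the vertices `Fin n` spanned by the family of faces `F`:
the points of the standard simplex whose barycentric coordinates vanish outside some face -/
def Cx {n : ℕ} (F : Set (Finset (Fin n))) : Set (Fin n → ℝ) :=
  {x | x ∈ stdSimplex ℝ (Fin n) ∧ ∃ s ∈ F, ∀ i, i ∉ s → x i = 0}

/-- the inclusion of `A` in `M` is homotopic to a map that factors through a finite simplicial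
complex of dimension at most `k - 1` (every face has at most `k` vertices) -/
def Inessential {M : Type*} [TopologicalSpace M] (k : ℕ) (A : Set M) : Prop :=
  ∃ (n : ℕ) (F : Set (Finset (Fin n))), (∀ s ∈ F, s.card ≤ k) ∧
    ∃ (φ : C(A, Cx F)) (ψ : C(Cx F, M)),
      (ψ.comp φ).Homotopic ⟨Subtype.val, continuous_subtype_val⟩

variable {E : Type*} [NormedAddCommGroup E] [NormedSpace ℝ E] {M : Type*} [TopologicalSpace M]
  [ChartedSpace E M] [IsManifold 𝓘(ℝ, E) ∞ M] [T2Space M] [CompactSpace M]

/-- the absolute `k`-systole: the infimum of the `k`-dimensional volumes of all subsets that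
cannot be deformed through a complex of dimension at most `k - 1` -/
def absys (g : Stmt.RMetric E M) (k : ℕ) : ℝ≥0∞ :=
  ⨅ (A : Set M) (_ : ¬ Inessential k A), Stmt.vol g k A

end Pool.Agent.Lib.MP_d476f3_gt.Abs
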