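import Pool.Agent.Lib.MP_d476f3_gt.Riem
import Pool.Agent.Lib.MP_d476f3_gt.Tau

open Set MeasureTheory Filter Topology
open scoped Manifold ContDiff ENNReal NNReal

noncomputable section

namespace Pool.Agent.Lib.MP_d476f3_gt.Abs

theorem metric_pack (d m : ℕ) (hd : 0 < d) (M : Type*) [TopologicalSpace M]
    [ChartedSpace (EuclideanSpace ℝ (Fin d)) M] [IsManifold (𝓡 d) ∞ M] [T2Space M]
    [CompactSpace M] (e : M → (Fin m → ℝ)) (he : ContMDiff (𝓡 d) 𝓘(ℝ, Fin m → ℝ) ∞ e)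
    (hinj : ∀ x, Function.Injective (mfderiv (𝓡 d) 𝓘(ℝ, Fin m → ℝ) e x)) :
    ∃ (lam : Measure (Fin m → ℝ)) (C : ℝ≥0), IsFiniteMeasure lam ∧
      ∀ (ι : Type) [Fintype ι] (F : ι → (Fin m → ℝ) → ℝ), (∀ c, ContDiff ℝ ∞ (F c)) →
      ∀ (A : Set (Fin m → ℝ)), IsOpen A → ∀ L δ : ℝ≥0, 0 < δ → δ ≤ 1 →
        (∀ p, e p ∈ A → ∀ v, ∑ c, (fderiv ℝ (F c) (e p) v) ^ 2 ≤ (L * ‖v‖) ^ 2) →
        (∀ p, e p ∉ A → ∀ j : EuclideanSpace ℝ (Fin d) →ₗ[ℝ] (Fin m → ℝ),
          ∃ ξ, ξ ≠ 0 ∧ ∀ c, fderiv ℝ (F c) (e p) (j ξ) = 0) →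
        ∃ g : RMetric d M,
          (∀ c x y, edist (F c (e x)) (F c (e y)) ≤ (rdist g).edist x y) ∧
          vol g d univ ≤ C * (((L : ℝ≥0∞) + 1) ^ d * lam A) + δ := by
  obtain ⟨n, rfl⟩ := Nat.exists_eq_add_one.2 hd
  obtain ⟨lam, C, h, hP⟩ := riem_univ he
  refine ⟨lam, C, h, fun ι _ F hF A hA L δ δ0 δ1 h1 h2 => ?_⟩
  obtain ⟨B, hB⟩ := isCompact_univ.exists_bound_of_continuousOn
    (((riem_smooth hF 1).continuous_fderiv (by simp)).comp he.continuous).continuousOn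
  let L' : ℝ≥0 := B.toNNReal + 1
  let η : ℝ≥0 := (C * L' ^ n + 1)⁻¹ * δ
  have η0 : 0 < η := by positivity
  have η1 : (η : ℝ) ≤ 1 := by
    exact_mod_cast mul_le_one₀ (inv_le_one_of_one_le₀ (le_add_self (a := (1 : ℝ≥0)))) zero_le δ1
  have s0 : (0 : ℝ) < η / (m + 1) := by positivity
  have s1 : (η : ℝ) / (m + 1) ≤ 1 := (div_le_self η.2 (by simp)).trans η1
  have hs : ∀ v : Fin m → ℝ, ((η : ℝ) / (m + 1)) ^ 2 * ∑ i, v i ^ 2 ≤ (η * ‖v‖) ^ 2 := fun v => by
    have : ∑ i, v i ^ 2 ≤ m * ‖v‖ ^ 2 := (Finset.sum_le_card_nsmul _ _ (‖v‖ ^ 2) fun i _ => by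
      rw [← sq_abs]; exact pow_le_pow_left₀ (abs_nonneg _) (norm_le_pi_norm v i) 2).trans_eq
        (by simp)
    rw [div_pow, div_mul_eq_mul_div, div_le_iff₀ (by positivity), mul_pow, mul_assoc]
    refine mul_le_mul_of_nonneg_left (this.trans ?_) (sq_nonneg _)
    rw [mul_comm]
    exact mul_le_mul_of_nonneg_left (by nlinarith [Nat.cast_nonneg (α := ℝ) m]) (sq_nonneg _)
  have hΦ := riem_smooth hF (η / (m + 1))
  have hN := riem_norm hF (η / (m + 1))
  obtain ⟨g, hg⟩ := riem_exists (hΦ.contMDiff.comp he) fun x =>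
    (injective_iff_map_eq_zero _).2 fun v hv => (injective_iff_map_eq_zero _).1 (hinj x) v <| by
      have h3 := mfderiv_comp x (hΦ.contMDiff.mdifferentiableAt (by simp))
        ((he x).mdifferentiableAt (by simp))
      rw [mfderiv_eq_fderiv] at h3
      have h4 := hN (e x) (mfderiv (𝓡 (n + 1)) 𝓘(ℝ, Fin m → ℝ) e x v)
      rw [show fderiv ℝ (riem_Phi F (η / (m + 1))) (e x)
        (mfderiv (𝓡 (n + 1)) 𝓘(ℝ, Fin m → ℝ) e x v) = 0 from
        congr($h3 v).symm.trans hv, norm_zero, eq_comm, zero_pow two_ne_zero,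
        add_eq_zero_iff_of_nonneg (by positivity) (by positivity), mul_eq_zero,
        Finset.sum_eq_zero_iff_of_nonneg fun _ _ => sq_nonneg _] at h4
      exact funext fun i => pow_eq_zero_iff two_ne_zero |>.1
        (h4.1.resolve_left (by positivity) i (Finset.mem_univ _))
  refine ⟨g, fun c x y => (PiLp.edist_apply_le (riem_Phi F (η / (m + 1)) (e x))
    (riem_Phi F (η / (m + 1)) (e y)) (.inr c)).trans (riem_lower (hΦ.contMDiff.comp he) hg x y),
    (hP _ _ hΦ A hA (L + 1) L' η (by positivity) (by positivity) η0 (fun p hp v => ?_)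
      (fun p v => ?_) (fun p hp j => ?_) g hg).trans ?_⟩
  · refine abs_le_of_sq_le_sq' ?_ (by positivity) |>.2
    rw [hN]
    push_cast
    have := pow_le_pow_left₀ (by positivity) (mul_le_of_le_one_left (norm_nonneg v) η1) 2
    have : 0 ≤ L * ‖v‖ * ‖v‖ := by positivity
    nlinarith [hs v, h1 p hp v]
  · refine le_trans (abs_le_of_sq_le_sq' ?_ (norm_nonneg _)).2
      (((fderiv ℝ (riem_Phi F 1) (e p)).le_opNorm v).trans (mul_le_mul_of_nonneg_right
        ((hB p trivial).trans ((Real.le_coe_toNNReal B).trans (lt_add_one _).le)) (norm_nonneg _)))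
    rw [hN, riem_norm hF]
    gcongr
  · obtain ⟨ξ, h3, h4⟩ := h2 p hp j
    refine ⟨ξ, h3, abs_le_of_sq_le_sq' ?_ (by positivity) |>.2⟩
    simpa [hN, h4] using hs (j ξ)
  · rw [mul_add]
    push_cast
    gcongr
    have : C * (L' ^ n * η) ≤ δ := by
      rw [← mul_assoc, ← mul_assoc]
      exact mul_le_of_le_one_left zero_le (mul_inv_le_one_of_le₀ le_self_add zero_le)
    exact_mod_cast this

open Classical in
/-- the pairs (copy, coordinate) whose family of hyperplanes passes within `ρ` of `x` -/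
def nr {κ : Type} [Fintype κ] {m : ℕ} (τ : κ × Fin m → ℝ) (ρ : ℝ) (x : Fin m → ℝ) :
    Finset (κ × Fin m) :=
  Finset.univ.filter fun s => ∃ n : ℤ, |x s.2 - τ s - n| < ρ

theorem tau_good (d m : ℕ) (κ : Type) [Fintype κ] (K : Set (Fin m → ℝ)) (hK : IsCompact K)
    (hnull : ∀ (ι : Type) [Fintype ι], d < Fintype.card ι → ∀ (t : ι → Fin m) (c : ι → ℝ),
      volume ((fun (x : Fin m → ℝ) (i : ι) => x (t i) + c i) '' K) = 0) :
    ∃ ρ : ℝ, 0 < ρ ∧ 1 / 2 < cube (κ × Fin m) {τ | ∀ x ∈ K, (nr τ ρ x).card ≤ d} := by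
  classical
  set Bad : Set (κ × Fin m → ℝ) := ⋃ π : Finset (κ × Fin m), ⋃ _ : d < π.card,
    ⋃ n : π → ℤ, {τ | (fun s : π => τ s.1) ∈
      (fun (x : Fin m → ℝ) (s : π) => x s.1.2 + -(n s : ℝ)) '' K} with hBad
  have hB : cube (κ × Fin m) Bad = 0 :=
    measure_iUnion_null fun π => measure_iUnion_null fun hπ => measure_iUnion_null fun n =>
      nonpos_iff_eq_zero.1 ((cube_proj_le (κ := π) (Function.Embedding.subtype (· ∈ π)) _).trans
        (hnull π (by simpa using hπ) (fun s => s.1.2) fun s => -(n s : ℝ)).le)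
  set Good : ℕ → Set (κ × Fin m → ℝ) := fun k =>
    {τ | ∀ x ∈ K, (nr τ (1 / ((k : ℝ) + 1)) x).card ≤ d} with hGood
  have hmono : Monotone Good := fun k l hkl τ hτ x hx => by
    refine (Finset.card_le_card fun s hs => ?_).trans (hτ x hx)
    obtain ⟨-, n, hn⟩ := Finset.mem_filter.1 hs
    exact Finset.mem_filter.2 ⟨Finset.mem_univ _, n, hn.trans_le (Nat.one_div_le_one_div hkl)⟩
  have hcov : univ ⊆ (⋃ k, Good k) ∪ Bad := fun τ _ => by
    by_cases hτ : τ ∈ Bad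
    · exact Or.inr hτ
    left
    have key : ∀ᶠ ρ in nhds (0 : ℝ), ∀ x ∈ K, (nr τ ρ x).card ≤ d := by
      refine hK.eventually_forall_of_forall_eventually
        (P := fun ρ x => (nr τ ρ x).card ≤ d) fun y hy => ?_
      set π := Finset.univ.filter fun s : κ × Fin m =>
        y s.2 - τ s ∈ range (Int.cast : ℤ → ℝ) with hπ
      have hcard : π.card ≤ d := by
        by_contra hc
        apply hτ
        choose n hn using fun s : π => (Finset.mem_filter.1 s.2).2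
        refine mem_iUnion.2 ⟨π, mem_iUnion.2 ⟨not_le.1 hc, mem_iUnion.2 ⟨n, y, hy, ?_⟩⟩⟩
        funext s
        simp only [hn s]; ring
      have ev : ∀ s, ∀ᶠ z : ℝ × (Fin m → ℝ) in nhds (0, y), s ∉ π →
          z.1 < Metric.infDist (z.2 s.2 - τ s) (range (Int.cast : ℤ → ℝ)) := fun s => by
        by_cases hs : s ∈ π
        · exact Filter.Eventually.of_forall fun _ h => absurd hs h
        have hpos : 0 < Metric.infDist (y s.2 - τ s) (range (Int.cast : ℤ → ℝ)) :=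
          (Int.isClosedEmbedding_coe_real.isClosed_range.notMem_iff_infDist_pos
            (range_nonempty _)).1 fun h => hs (Finset.mem_filter.2 ⟨Finset.mem_univ _, h⟩)
        have := ContinuousAt.eventually_lt (f := fun z : ℝ × (Fin m → ℝ) => z.1)
          (g := fun z => Metric.infDist (z.2 s.2 - τ s) (range (Int.cast : ℤ → ℝ)))
          (x₀ := (0, y)) continuousAt_fst
          (((Metric.continuous_infDist_pt _).comp (by fun_prop)).continuousAt) hpos
        exact this.mono fun _ h _ => h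
      filter_upwards [Filter.eventually_all.2 ev] with z hz
      refine (Finset.card_le_card fun s hs => ?_).trans hcard
      by_contra hsπ
      obtain ⟨-, n, hn⟩ := Finset.mem_filter.1 hs
      have := (hz s hsπ).trans_le (Metric.infDist_le_dist_of_mem (mem_range_self n))
      rw [Real.dist_eq] at this
      linarith
    obtain ⟨k, hk⟩ := (tendsto_one_div_add_atTop_nhds_zero_nat.eventually key).exists
    exact mem_iUnion.2 ⟨k, hk⟩
  have h1 : (1 : ℝ≥0∞) / 2 < ⨆ k, cube (κ × Fin m) (Good k) := by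
    rw [← hmono.measure_iUnion]
    have := (measure_mono hcov).trans (measure_union_le (μ := cube (κ × Fin m)) _ _)
    rw [hB, add_zero, measure_univ] at this
    exact (ENNReal.half_lt_self one_ne_zero ENNReal.one_ne_top).trans_le this
  obtain ⟨k, hk⟩ := lt_iSup_iff.1 h1
  exact ⟨_, Nat.one_div_pos_of_nat, hk⟩

/-- points near a pattern of the family `Adm` -/
def Un {κ : Type} [Fintype κ] {m : ℕ} (Adm : Finset (Finset (κ × Fin m))) (τ : κ × Fin m → ℝ)
    (r : ℝ) : Set (Fin m → ℝ) := {x | ∃ π ∈ Adm, π ⊆ nr τ r x}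

variable {κ : Type} [Fintype κ] {m : ℕ}

theorem un_isOpen (Adm : Finset (Finset (κ × Fin m))) (r : ℝ) :
    IsOpen {q : (κ × Fin m → ℝ) × (Fin m → ℝ) | q.2 ∈ Un Adm q.1 r} := by
  have e : {q : (κ × Fin m → ℝ) × (Fin m → ℝ) | q.2 ∈ Un Adm q.1 r} =
      ⋃ π : Finset (κ × Fin m), ⋃ _ : π ∈ Adm, ⋂ s ∈ π, ⋃ n : ℤ,
          {q : (κ × Fin m → ℝ) × (Fin m → ℝ) | |q.2 s.2 - q.1 s - (n : ℝ)| < r} := by
    ext q
    simp only [Un, nr, mem_ofPred_eq, Finset.subset_iff, Finset.mem_filter, Finset.mem_univ,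
      true_and, mem_iUnion, mem_iInter, exists_prop]
  rw [e]
  exact isOpen_iUnion fun π => isOpen_iUnion fun _ => isOpen_biInter_finset fun s _ =>
    isOpen_iUnion fun n => isOpen_lt (by fun_prop) continuous_const

theorem isOpen_Un (Adm : Finset (Finset (κ × Fin m))) (τ : κ × Fin m → ℝ) (r : ℝ) :
    IsOpen (Un Adm τ r) :=
  (un_isOpen Adm r).preimage (f := fun x => (τ, x)) (by fun_prop)

theorem un_point {d : ℕ} {Adm : Finset (Finset (κ × Fin m))} (hA : ∀ π ∈ Adm, π.card = d) (r : ℝ)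
    (hr : 0 < r) (hr1 : r ≤ 1) (x : Fin m → ℝ) :
    cube (κ × Fin m) {τ | x ∈ Un Adm τ r} ≤ Adm.card * (6 * ENNReal.ofReal r) ^ d := by
  classical
  have hsub : {τ | x ∈ Un Adm τ r} ⊆ ⋃ π ∈ Adm, {τ | π ⊆ nr τ r x} := by
    rintro τ ⟨π, h1, h2⟩
    exact mem_biUnion (Finset.mem_coe.2 h1) h2
  have one : ∀ π ∈ Adm, cube (κ × Fin m) {τ | π ⊆ nr τ r x} ≤
      (6 * ENNReal.ofReal r) ^ d := fun π hπ => by
    have hd := hA π hπ
    have h := cube_proj_le (κ := π) (Function.Embedding.subtype (· ∈ π))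
      (Set.pi univ fun s => {t | t ∈ Icc (0 : ℝ) 1 ∧ ∃ n : ℤ, |x s.1.2 - t - n| < r})
    refine (measure_mono_ae ?_).trans (h.trans ?_)
    · filter_upwards [cube_ae (κ × Fin m)] with τ hτ hπτ s _
      exact ⟨hτ _, (Finset.mem_filter.1 (hπτ s.2)).2⟩
    · rw [volume_pi_pi]
      refine (Finset.prod_le_pow_card _ _ _ fun s _ => tau_slab _ r hr hr1).trans ?_
      simp [hd]
  refine (measure_mono hsub).trans ((measure_biUnion_finset_le _ _).trans ?_)
  refine (Finset.sum_le_card_nsmul _ _ _ one).trans ?_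
  rw [nsmul_eq_mul]

theorem exists_tau (d m : ℕ) (K : Set (Fin m → ℝ)) (hK : IsCompact K)
    (hnull : ∀ (ι : Type) [Fintype ι], d < Fintype.card ι → ∀ (t : ι → Fin m) (c : ι → ℝ),
      volume ((fun (x : Fin m → ℝ) (i : ι) => x (t i) + c i) '' K) = 0)
    (lam : Measure (Fin m → ℝ)) [IsFiniteMeasure lam] :
    ∃ C : ℝ≥0, ∀ (κ : Type) [Fintype κ] (Adm : Finset (Finset (κ × Fin m))),
      (∀ π ∈ Adm, π.card = d) → ∃ ρ : ℝ, 0 < ρ ∧ ∀ r : ℝ, 0 < r → r ≤ 1 →
      ∃ τ : κ × Fin m → ℝ, (∀ x ∈ K, (nr τ ρ x).card ≤ d) ∧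
        lam (Un Adm τ r) ≤ C * ((Adm.card : ℝ≥0∞) + 1) * ENNReal.ofReal r ^ d := by
  set C₀ : ℝ≥0 := 6 ^ d * (lam univ).toNNReal + 1 with hC₀
  refine ⟨2 * C₀, fun κ _ Adm hA => ?_⟩
  obtain ⟨ρ, hρ, hgood⟩ := tau_good d m κ K hK hnull
  refine ⟨ρ, hρ, fun r hr hr1 => ?_⟩
  set E : ℝ≥0∞ := C₀ * ((Adm.card : ℝ≥0∞) + 1) * ENNReal.ofReal r ^ d with hE
  have hE0 : E ≠ 0 := mul_ne_zero (mul_ne_zero (by simp [hC₀]) (by simp))
    (pow_ne_zero _ (by simpa using hr))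
  have hEt : E ≠ ⊤ := ENNReal.mul_ne_top (ENNReal.mul_ne_top (by simp) (by simp))
    (ENNReal.pow_ne_top (by simp))
  have hW := (un_isOpen Adm r).measurableSet
  have hint : ∫⁻ τ, lam (Un Adm τ r) ∂(cube (κ × Fin m)) ≤ E := by
    have e1 := Measure.prod_apply (μ := cube (κ × Fin m)) (ν := lam) hW
    have e2 := Measure.prod_apply_symm (μ := cube (κ × Fin m)) (ν := lam) hW
    have e3 : ∫⁻ τ, lam (Un Adm τ r) ∂(cube (κ × Fin m)) =
        ∫⁻ x, cube (κ × Fin m) {τ | x ∈ Un Adm τ r} ∂lam := e1.symm.trans e2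
    rw [e3]
    refine (lintegral_mono fun x => un_point hA r hr hr1 x).trans ?_
    rw [lintegral_const, hE, hC₀]
    push_cast
    rw [ENNReal.coe_toNNReal (measure_ne_top _ _), mul_pow]
    calc _ = (6 ^ d * lam univ) * Adm.card * ENNReal.ofReal r ^ d := by ring
      _ ≤ _ := by gcongr <;> exact le_self_add
  have hmk := (mul_meas_ge_le_lintegral (μ := cube (κ × Fin m))
    (f := fun τ => lam (Un Adm τ r)) (measurable_measure_prodMk_left hW) (2 * E)).trans hint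
  have hhalf : cube (κ × Fin m) {τ | 2 * E ≤ lam (Un Adm τ r)} ≤ 1 / 2 := by
    rw [ENNReal.le_div_iff_mul_le (by simp) (by simp), ← ENNReal.mul_le_mul_iff_right hE0 hEt]
    calc _ = 2 * E * _ := by ring
      _ ≤ E := hmk
      _ = _ := by ring
  by_contra hn
  push Not at hn
  refine (hgood.trans_le ((measure_mono ?_).trans hhalf)).false
  intro τ hg
  refine le_of_eq_of_le ?_ (hn τ hg).le
  rw [hE]; push_cast; ring

end Pool.Agent.Lib.MP_d476f3_gt.Abs
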