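import Pool.Agent.Lib.MP_d476f3_gt.Grid
import Pool.Agent.Lib.MP_d476f3_gt.Abs.Pack
import Pool.Agent.Lib.MP_d476f3_gt.Abs.Count

open Set MeasureTheory Filter Topology
open scoped ContDiff ENNReal NNReal

noncomputable section

namespace Pool.Agent.Lib.MP_d476f3_gt.Abs

/-- a bump function on the line -/
def bp : ContDiffBump (0 : ℝ) := ⟨1, 2, one_pos, one_lt_two⟩

lemma bp_one {u : ℝ} (h : |u| ≤ 1) : bp u = 1 :=
  bp.one_of_mem_closedBall (mem_closedBall_zero_iff.2 h)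

lemma bp_zero {u : ℝ} (h : 2 ≤ |u|) : bp u = 0 :=
  bp.zero_of_le_dist (by simpa [bp] using h)

/-- the two profile functions -/
def W (b : Bool) (u : ℝ) : ℝ := if b then u / 2 * bp u else bp u

lemma W_smooth (b : Bool) : ContDiff ℝ ∞ (W b) := by
  cases b
  · exact bp.contDiff
  · exact (contDiff_id.div_const 2).mul bp.contDiff

lemma W_zero (b : Bool) {u : ℝ} (h : 2 ≤ |u|) : W b u = 0 := by
  cases b <;> simp [W, bp_zero h]

lemma W_abs (b : Bool) (u : ℝ) : |W b u| ≤ 1 := by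
  rcases le_total 2 |u| with h | h
  · simp [W_zero b h]
  have h1 : |bp u| ≤ 1 := by rw [abs_of_nonneg bp.nonneg]; exact bp.le_one
  cases b
  · exact h1
  · change |u / 2 * bp u| ≤ 1
    rw [abs_mul, abs_div, abs_two]
    exact mul_le_one₀ (by linarith) (abs_nonneg _) h1

lemma W_lip : ∃ C : ℝ≥0, ∀ b, LipschitzWith C (W b) := by
  have h : ∀ b, ∃ C : ℝ≥0, LipschitzWith C (W b) := fun b =>
    ContDiff.lipschitzWith_of_hasCompactSupport (HasCompactSupport.intro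
      (isCompact_closedBall (0 : ℝ) 2) fun u hu => W_zero b (by
        simpa using (not_le.1 (mt mem_closedBall_zero_iff.2 hu)).le)) (W_smooth b) (by simp)
  choose C hC using h
  refine ⟨max (C true) (C false), fun b => (hC b).weaken ?_⟩
  cases b
  exacts [le_max_right _ _, le_max_left _ _]

lemma lip_prod {X α : Type*} [PseudoMetricSpace X] (Z : Finset α) (f : α → X → ℝ) {L : ℝ}
    (h1 : ∀ u x, |f u x| ≤ 1) (h2 : ∀ u x y, |f u x - f u y| ≤ L * dist x y) (x y : X) :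
    |∏ u ∈ Z, f u x - ∏ u ∈ Z, f u y| ≤ Z.card * (L * dist x y) := by
  classical
  induction Z using Finset.induction_on with
  | empty => simp
  | insert a Z ha ih =>
    rw [Finset.prod_insert ha, Finset.prod_insert ha, Finset.card_insert_of_notMem ha]
    have h3 : |∏ u ∈ Z, f u y| ≤ 1 := by
      rw [Finset.abs_prod]
      exact Finset.prod_le_one (fun _ _ => abs_nonneg _) fun u _ => h1 u y
    rw [show f a x * ∏ u ∈ Z, f u x - f a y * ∏ u ∈ Z, f u y =
      f a x * (∏ u ∈ Z, f u x - ∏ u ∈ Z, f u y) + (f a x - f a y) * ∏ u ∈ Z, f u y by ring]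
    refine (abs_add_le _ _).trans ?_
    rw [abs_mul, abs_mul]
    push_cast
    nlinarith [mul_le_mul (h1 a x) ih (abs_nonneg _) zero_le_one,
      mul_le_mul (h2 a x y) h3 (abs_nonneg _) ((abs_nonneg _).trans (h2 a x y))]

variable {κ : Type} [Fintype κ] {m : ℕ} {ty : κ → ℕ} {τ : κ × Fin m → ℝ} {r ρ s : ℝ}
  {x : Fin m → ℝ} {d : ℕ}

/-- the stretched periodic coordinate -/
def uu (τ : κ × Fin m → ℝ) (r : ℝ) (i : κ) (t : Fin m) (x : Fin m → ℝ) : ℝ :=
  Real.sin (Real.pi * (x t - τ (i, t))) / r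

/-- a copy with a set of normal directions -/
abbrev Sh (ty : κ → ℕ) (m : ℕ) := {q : κ × Finset (Fin m) // q.2.card = ty q.1}

/-- the coordinates of the map defining the metric -/
def FF (τ : κ × Fin m → ℝ) (r s : ℝ) (c : Sh ty m × Fin m) (x : Fin m → ℝ) : ℝ :=
  s * ∏ t ∈ c.1.1.2, W (decide (t = c.2)) (uu τ r c.1.1.1 t x)

/-- the sheet is active at `x` -/
def Act (τ : κ × Fin m → ℝ) (r : ℝ) (q : Sh ty m) (x : Fin m → ℝ) : Prop :=
  ∀ t ∈ q.1.2, |uu τ r q.1.1 t x| ≤ 2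

omit [Fintype κ] in
lemma uu_smooth (i : κ) (t : Fin m) : ContDiff ℝ ∞ (uu τ r i t) := by
  unfold uu; fun_prop

omit [Fintype κ] in
lemma FF_smooth (c : Sh ty m × Fin m) : ContDiff ℝ ∞ (FF τ r s c) :=
  contDiff_const.mul (contDiff_prod fun t _ => (W_smooth _).comp (uu_smooth _ t))

omit [Fintype κ] in
lemma isClosed_Act (q : Sh ty m) : IsClosed {x | Act τ r q x} := by
  simp only [Act, ofPred_forall]
  exact isClosed_iInter fun t => isClosed_iInter fun _ =>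
    isClosed_le (uu_smooth _ t).continuous.abs continuous_const

lemma abs_sin_int (y : ℝ) (n : ℤ) : |Real.sin (Real.pi * (y + n))| = |Real.sin (Real.pi * y)| := by
  rw [show Real.pi * (y + n) = Real.pi * y + n * Real.pi by ring, Real.sin_add_int_mul_pi, abs_mul,
    abs_neg_one_zpow, one_mul]

lemma mem_nr {z : κ × Fin m} : z ∈ nr τ ρ x ↔ ∃ n : ℤ, |x z.2 - τ z - n| < ρ := by
  simp [nr]

lemma act_near (hr : 0 < r) {q : Sh ty m} (h : Act τ r q x) :
    {q.1.1} ×ˢ q.1.2 ⊆ nr τ (2 * r) x := by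
  rintro ⟨i, t⟩ hs
  simp only [Finset.mem_product, Finset.mem_singleton] at hs
  obtain ⟨rfl, ht⟩ := hs
  refine mem_nr.2 ⟨round (x t - τ (q.1.1, t)), ?_⟩
  have h1 := h t ht
  rw [uu, abs_div, abs_of_pos hr, div_le_iff₀ hr] at h1
  generalize x t - τ (q.1.1, t) = y at h1 ⊢
  have h2 := abs_sub_round y
  have h3 := abs_sin_int (y - round y) (round y)
  rw [sub_add_cancel] at h3
  have hp := Real.pi_pos
  have h4 := Real.mul_abs_le_abs_sin (x := Real.pi * (y - round y)) (by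
    rw [abs_mul, abs_of_pos hp]; nlinarith)
  rw [abs_mul, abs_of_pos hp, ← mul_assoc, div_mul_cancel₀ _ hp.ne', ← h3] at h4
  linarith

lemma nr_mono {a b : ℝ} (h : a ≤ b) : nr τ a x ⊆ nr τ b x := fun _ hs => by
  obtain ⟨n, hn⟩ := mem_nr.1 hs
  exact mem_nr.2 ⟨n, hn.trans_le h⟩

open Classical in
lemma card_act (h1 : ∀ i, 0 < ty i) (hr : 0 < r) (hρ : 2 * r ≤ ρ) (hx : (nr τ ρ x).card ≤ d) :
    (Finset.univ.filter fun q : Sh ty m => Act τ r q x).card ≤ 2 ^ d := by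
  refine (Finset.card_le_card_of_injOn (fun q => {q.1.1} ×ˢ q.1.2) (t := (nr τ ρ x).powerset)
    (fun q hq => ?_) fun q _ q' _ e => ?_).trans ?_
  · exact Finset.mem_powerset.2 ((act_near hr (by simpa using hq)).trans (nr_mono hρ))
  · obtain ⟨t, ht⟩ := Finset.card_pos.1 (q.2 ▸ h1 q.1.1)
    have e' := Finset.ext_iff.1 e
    simp only [Finset.mem_product, Finset.mem_singleton, Prod.forall] at e'
    have e1 := ((e' q.1.1 t).1 ⟨rfl, ht⟩).1
    refine Subtype.ext (Prod.ext e1 (Finset.ext fun u => ?_))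
    simpa [e1] using e' q.1.1 u
  · rw [Finset.card_powerset]
    exact Nat.pow_le_pow_right two_pos hx

omit [Fintype κ] in
lemma FF_inactive {c : Sh ty m × Fin m} (h : ¬ Act τ r c.1 x) : fderiv ℝ (FF τ r s c) x = 0 := by
  simp only [Act, not_forall, not_le] at h
  obtain ⟨t, ht, h⟩ := h
  have : FF τ r s c =ᶠ[𝓝 x] fun _ => 0 :=
    (((uu_smooth (τ := τ) (r := r) c.1.1.1 t).continuous.abs.tendsto x).eventually
      (lt_mem_nhds h)).mono fun y hy => by
        rw [FF, Finset.prod_eq_zero ht (W_zero _ hy.le), mul_zero]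
  rw [this.fderiv_eq]
  simp

omit [Fintype κ] in
lemma FF_flat {c : Sh ty m × Fin m} {ξ : Fin m → ℝ} (h : ∀ t ∈ c.1.1.2, ξ t = 0) :
    fderiv ℝ (FF τ r s c) x ξ = 0 := by
  rw [← ((FF_smooth c).differentiable (by simp) x).lineDeriv_eq_fderiv, lineDeriv]
  have : (fun a : ℝ => FF τ r s c (x + a • ξ)) = fun _ => FF τ r s c x := by
    funext a
    unfold FF
    congr 1
    exact Finset.prod_congr rfl fun t ht => by simp [uu, h t ht]
  rw [this, deriv_const]

omit [Fintype κ] in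
lemma FF_deriv {C : ℝ≥0} (hC : ∀ b, LipschitzWith C (W b)) (hr : 0 < r) (hs : 0 ≤ s)
    (c : Sh ty m × Fin m) (v : Fin m → ℝ) :
    |fderiv ℝ (FF τ r s c) x v| ≤ s * (m * (C * Real.pi / r)) * ‖v‖ := by
  have hp := Real.pi_pos
  have h : LipschitzWith (s * (m * (C * Real.pi / r))).toNNReal (FF τ r s c) :=
    LipschitzWith.of_dist_le' fun x y => by
      rw [Real.dist_eq, FF, FF, ← mul_sub, abs_mul, abs_of_nonneg hs, mul_assoc, mul_assoc]
      refine mul_le_mul_of_nonneg_left ((lip_prod _ (fun t x => W (decide (t = c.2))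
        (uu τ r c.1.1.1 t x)) (L := C * Real.pi / r) (fun _ _ => W_abs _ _) (fun t x y => ?_)
          x y).trans ?_) hs
      · refine ((hC _).dist_le_mul _ _).trans ?_
        rw [Real.dist_eq, uu, uu, ← sub_div, abs_div, abs_of_pos hr, mul_div_assoc, mul_assoc,
          div_mul_eq_mul_div]
        gcongr
        refine (Real.abs_sin_sub_sin_le _ _).trans ?_
        rw [← mul_sub, abs_mul, abs_of_pos hp, sub_sub_sub_cancel_right]
        exact mul_le_mul_of_nonneg_left (dist_le_pi_dist x y t) hp.le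
      · gcongr
        exact_mod_cast (Finset.card_le_univ _).trans_eq (Fintype.card_fin m)
  refine ((fderiv ℝ (FF τ r s c) x).le_of_opNorm_le (norm_fderiv_le_of_lipschitz ℝ h) v).trans_eq ?_
  rw [Real.coe_toNNReal _ (by positivity)]

theorem norm_bound {C : ℝ≥0} (hC : ∀ b, LipschitzWith C (W b)) (h1 : ∀ i, 0 < ty i) (hr : 0 < r)
    (hs : 0 ≤ s) (hρ : 2 * r ≤ ρ) (hx : (nr τ ρ x).card ≤ d) (v : Fin m → ℝ) :
    ∑ c : Sh ty m × Fin m, (fderiv ℝ (FF τ r s c) x v) ^ 2 ≤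
      (2 ^ d * m * (s * (m * (C * Real.pi / r))) * ‖v‖) ^ 2 := by
  classical
  obtain ⟨b, hb⟩ : ∃ b, b = (s * (m * (C * Real.pi / r)) * ‖v‖) ^ 2 := ⟨_, rfl⟩
  have hb0 : 0 ≤ b := hb ▸ sq_nonneg _
  have h2 : ∀ q : Sh ty m, ∑ t, (fderiv ℝ (FF τ r s (q, t)) x v) ^ 2 ≤
      if Act τ r q x then m * b else 0 := fun q => by
    split_ifs with h
    · refine (Finset.sum_le_card_nsmul _ _ b fun j _ => ?_).trans (by simp)
      rw [← sq_abs, hb]
      exact pow_le_pow_left₀ (abs_nonneg _) (FF_deriv hC hr hs _ v) 2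
    · exact (Finset.sum_eq_zero fun t _ => by simp [FF_inactive (c := (q, t)) h]).le
  rw [Fintype.sum_prod_type]
  refine (Finset.sum_le_sum fun q _ => h2 q).trans ?_
  rw [← Finset.sum_filter, Finset.sum_const, nsmul_eq_mul]
  have h3 : ((Finset.univ.filter fun q : Sh ty m => Act τ r q x).card : ℝ) ≤ 2 ^ d := by
    exact_mod_cast card_act h1 hr hρ hx
  have h4 : (2 ^ d * m : ℝ) ≤ (2 ^ d * m) ^ 2 := by
    exact_mod_cast Nat.le_self_pow two_ne_zero (2 ^ d * m)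
  calc _ ≤ (2 ^ d * m) * b := by rw [← mul_assoc]; gcongr
    _ ≤ (2 ^ d * m) ^ 2 * b := by gcongr
    _ = _ := by rw [hb]; ring

theorem degenerate [DecidableEq κ] (hr : 0 < r) (hρ : 2 * r ≤ ρ) (hx : (nr τ ρ x).card ≤ d)
    (hU : x ∉ Un (Adm ty m d) τ (2 * r)) (j : EuclideanSpace ℝ (Fin d) →ₗ[ℝ] (Fin m → ℝ)) :
    ∃ ξ, ξ ≠ 0 ∧ ∀ c : Sh ty m × Fin m, fderiv ℝ (FF τ r s c) x (j ξ) = 0 := by
  classical
  let A := Finset.univ.filter fun q : Sh ty m => Act τ r q x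
  let π : Finset (κ × Fin m) := A.biUnion fun q => {q.1.1} ×ˢ q.1.2
  have hπ : π ⊆ nr τ (2 * r) x :=
    Finset.biUnion_subset.2 fun q hq => act_near hr (Finset.mem_filter.1 hq).2
  have hc : π.card ≤ d := (Finset.card_le_card (hπ.trans (nr_mono hρ))).trans hx
  rcases hc.eq_or_lt with hc | hc
  · refine absurd ⟨π, Finset.mem_filter.2 ⟨Finset.mem_univ _, hc, ?_⟩, hπ⟩ hU
    rw [← hc, Finset.card_eq_sum_card_image Prod.fst π]
    refine Finset.sum_le_sum fun i hi => ?_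
    obtain ⟨z, hz, rfl⟩ := Finset.mem_image.1 hi
    obtain ⟨q, hq, hz⟩ := Finset.mem_biUnion.1 hz
    have e : z.1 = q.1.1 := Finset.mem_singleton.1 (Finset.mem_product.1 hz).1
    rw [e, ← q.2]
    refine le_trans (by simp) (Finset.card_le_card (s := {q.1.1} ×ˢ q.1.2) fun w hw =>
      Finset.mem_filter.2 ⟨Finset.mem_biUnion.2 ⟨q, hq, hw⟩,
        Finset.mem_singleton.1 (Finset.mem_product.1 hw).1⟩)
  · let L : EuclideanSpace ℝ (Fin d) →ₗ[ℝ] (π → ℝ) :=
      (LinearMap.pi fun z : π => LinearMap.proj z.1.2) ∘ₗ j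
    obtain ⟨ξ, h1, h2⟩ := (Submodule.ne_bot_iff _).1 (LinearMap.ker_ne_bot_of_finrank_lt (f := L)
      (by rw [Module.finrank_fintype_fun_eq_card, Fintype.card_coe]; simpa using hc))
    have h3 : L ξ = 0 := h1
    refine ⟨ξ, h2, fun c => ?_⟩
    by_cases h : Act τ r c.1 x
    · exact FF_flat fun t ht => congrFun h3 ⟨(c.1.1.1, t), Finset.mem_biUnion.2
        ⟨c.1, Finset.mem_filter.2 ⟨Finset.mem_univ _, h⟩, by simpa using ht⟩⟩
    · simp [FF_inactive h]

omit [Fintype κ] in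
lemma hit (hr : 0 < r) (hr1 : r ≤ 1) (hs : 0 ≤ s) {a : Fin m → ℝ} (ha : ∀ t, a t ∈ Icc (0 : ℝ) 1)
    {i : κ} (h : (x - fun t => τ (i, t) + Real.arcsin (r * a t) / Real.pi) ∉ Wlt m (ty i)) :
    ∃ q : Sh ty m, q.1.1 = i ∧ Act τ r q x ∧ ∀ t ∈ q.1.2, |FF τ r s (q, t) x| = s / 2 * a t := by
  obtain ⟨Z, hZ, hZ'⟩ := Finset.exists_subset_card_eq (not_lt.1 h)
  have h1 : ∀ t ∈ Z, |uu τ r i t x| = a t := fun t ht => by
    obtain ⟨n, hn⟩ := mem_intc.1 (hZ ht)
    have e : x t - τ (i, t) = Real.arcsin (r * a t) / Real.pi + n := by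
      simp only [Pi.sub_apply] at hn
      linarith
    have h0 : 0 ≤ r * a t := mul_nonneg hr.le (ha t).1
    rw [uu, abs_div, e, abs_sin_int, mul_div_cancel₀ _ Real.pi_ne_zero, Real.sin_arcsin
      (by linarith) (mul_le_one₀ hr1 (ha t).1 (ha t).2), abs_of_nonneg h0, abs_of_pos hr,
      mul_div_cancel_left₀ _ hr.ne']
  refine ⟨⟨(i, Z), hZ'⟩, rfl, fun t ht => (h1 t ht).trans_le ((ha t).2.trans one_le_two),
    fun t ht => ?_⟩
  have h2 : ∀ u ∈ Z, bp (uu τ r i u x) = 1 := fun u hu => bp_one ((h1 u hu).trans_le (ha u).2)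
  rw [FF, Finset.prod_eq_single t (fun u hu hut => by simp [W, hut, h2 u hu])
    (fun h => absurd ht h)]
  simp only [W, decide_true, if_true, h2 t ht, mul_one]
  rw [abs_mul, abs_div, h1 t ht, abs_of_nonneg hs, abs_two]
  ring

theorem ess_bound {M : Type*} [EMetricSpace M] [MeasurableSpace M] [BorelSpace M]
    {e : M → (Fin m → ℝ)} (he : Continuous e) (h1 : ∀ i, 0 < ty i) (hr : 0 < r) (hr1 : r ≤ 1)
    (hρ : 2 * r ≤ ρ) (hx : ∀ p, (nr τ ρ (e p)).card ≤ d) {s : ℝ≥0} (hs : 0 < s)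
    (hF : ∀ (c : Sh ty m × Fin m) x y, edist (FF τ r s c (e x)) (FF τ r s c (e y)) ≤ edist x y)
    {A : Set M} {k : ℕ} (hA : ∀ θ, ∃ p ∈ A, e p - θ ∉ Wlt m k) :
    ((Finset.univ.filter fun i => ty i = k).card : ℝ≥0∞) ≤
      ((2 / s : ℝ≥0) : ℝ≥0∞) ^ k * (2 ^ d * μH[k] A) := by
  classical
  have hm : ∀ q : Sh ty m, MeasurableSet {p | Act τ r q (e p)} := fun q =>
    ((isClosed_Act q).preimage he).measurableSet
  have h2 : ∑ q : Sh ty m, μH[k] ({p | Act τ r q (e p)} ∩ A) ≤ 2 ^ d * μH[k] A := by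
    have h1' : ∀ q : Sh ty m, μH[k] ({p | Act τ r q (e p)} ∩ A) =
        ∫⁻ p in A, {p | Act τ r q (e p)}.indicator 1 p ∂μH[k] := fun q => by
      rw [lintegral_indicator_one (hm q), Measure.restrict_apply (hm q)]
    simp_rw [h1']
    rw [← lintegral_finsetSum _ fun q _ => measurable_one.indicator (hm q), ← setLIntegral_const]
    refine lintegral_mono fun p => ?_
    simp only [indicator, mem_ofPred_eq, Pi.one_apply, Finset.sum_boole]
    exact_mod_cast card_act h1 hr hρ (hx p)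
  have h3 : ∀ q : Sh ty m, ty q.1.1 = k → cube (Fin m) {a | ∃ p ∈ A, Act τ r q (e p) ∧
      ∀ t ∈ q.1.2, |FF τ r s (q, t) (e p)| = s / 2 * a t} ≤
      ((2 / s : ℝ≥0) : ℝ≥0∞) ^ k * μH[k] ({p | Act τ r q (e p)} ∩ A) := fun q hq => by
    let T : Dir m k := ⟨q.1.2, q.2.trans hq⟩
    let f : M → Fin k → ℝ := fun p j => ((2 / s : ℝ≥0) : ℝ) • |FF τ r s (q, T.emb j) (e p)|
    have hf : LipschitzWith (2 / s) f := fun p p' => edist_pi_le_iff.2 fun j => by
      refine (edist_smul_le _ _ _).trans ?_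
      rw [NNReal.nnnorm_eq, ENNReal.smul_def, smul_eq_mul]
      gcongr
      refine le_trans ?_ (hF (q, T.emb j) p p')
      simpa using lipschitzWith_one_norm (FF τ r s (q, T.emb j) (e p)) (FF τ r s (q, T.emb j) (e p'))
    have h4 := hf.hausdorffMeasure_image_le (d := k) (by positivity) ({p | Act τ r q (e p)} ∩ A)
    have h5 := hausdorffMeasure_pi_real (ι := Fin k)
    rw [Fintype.card_fin] at h5
    rw [h5, ENNReal.rpow_natCast] at h4
    refine le_trans (measure_mono ?_) ((cube_proj_le T.emb _).trans h4)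
    rintro a ⟨p, hp, a1, a2⟩
    refine ⟨p, ⟨a1, hp⟩, funext fun j => ?_⟩
    have : (s : ℝ) ≠ 0 := by exact_mod_cast hs.ne'
    simp only [f, a2 _ (T.emb_mem j), smul_eq_mul, NNReal.coe_div, NNReal.coe_ofNat]
    field_simp
  have h4 : ∀ i, ty i = k → 1 ≤ ∑ q : Sh ty m with q.1.1 = i,
      ((2 / s : ℝ≥0) : ℝ≥0∞) ^ k * μH[k] ({p | Act τ r q (e p)} ∩ A) := fun i hi => by
    refine le_trans ?_ ((measure_biUnion_finset_le _ _).trans (Finset.sum_le_sum fun q hq =>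
      h3 q ((Finset.mem_filter.1 hq).2 ▸ hi)))
    rw [← measure_univ (μ := cube (Fin m))]
    refine measure_mono_ae ((cube_ae _).mono fun a ha _ => ?_)
    obtain ⟨p, hp, h⟩ := hA fun t => τ (i, t) + Real.arcsin (r * a t) / Real.pi
    obtain ⟨q, b1, b2, b3⟩ := hit (s := s) hr hr1 s.2 ha (hi ▸ h)
    exact mem_biUnion (x := q) (by simpa using b1) ⟨p, hp, b2, b3⟩
  calc _ = ∑ i ∈ Finset.univ.filter fun i => ty i = k, (1 : ℝ≥0∞) := by simp
    _ ≤ ∑ i ∈ Finset.univ.filter fun i => ty i = k, ∑ q : Sh ty m with q.1.1 = i,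
      ((2 / s : ℝ≥0) : ℝ≥0∞) ^ k * μH[k] ({p | Act τ r q (e p)} ∩ A) :=
        Finset.sum_le_sum fun i hi => h4 i (Finset.mem_filter.1 hi).2
    _ ≤ ∑ i, ∑ q : Sh ty m with q.1.1 = i,
      ((2 / s : ℝ≥0) : ℝ≥0∞) ^ k * μH[k] ({p | Act τ r q (e p)} ∩ A) :=
        Finset.sum_le_sum_of_subset (Finset.filter_subset _ _)
    _ = _ := Finset.sum_fiberwise _ _ _
    _ ≤ _ := by rw [← Finset.mul_sum]; gcongr

end Pool.Agent.Lib.MP_d476f3_gt.Abs
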