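import Pool.Agent.Lib.MP_d476f3_gt.Sard
import Pool.Agent.Lib.MP_d476f3_gt.Retract
import Pool.Agent.Lib.MP_d476f3_gt.Abs.Fn
import Pool.Agent.Lib.MP_d476f3_gt.Abs.Nerve

open Set MeasureTheory Filter Topology
open scoped Manifold ContDiff ENNReal NNReal

noncomputable section

namespace Pool.Agent.Lib.MP_d476f3_gt.Abs

lemma exists_types (d : ℕ) (n : ℕ → ℕ) : ∃ (κ : Type) (_ : Fintype κ) (_ : DecidableEq κ)
    (ty : κ → ℕ), (∀ i, 0 < ty i) ∧ ∀ k, 0 < k →
      (Finset.univ.filter fun i => ty i = k).card = if k ≤ d then n k else 0 := by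
  refine ⟨Σ k : Fin d, Fin (n (k + 1)), inferInstance, inferInstance, fun i => i.1 + 1,
    fun i => Nat.succ_pos _, fun k hk => ?_⟩
  obtain ⟨k, rfl⟩ : ∃ j, k = j + 1 := ⟨k - 1, by omega⟩
  split_ifs with h
  · have : (Finset.univ.filter fun i : Σ k : Fin d, Fin (n (k + 1)) => i.1.1 + 1 = k + 1) =
        (Finset.univ : Finset (Fin (n (k + 1)))).map
          ⟨Sigma.mk (β := fun k : Fin d => Fin (n (k + 1))) ⟨k, h⟩, sigma_mk_injective⟩ := by
      ext ⟨⟨j, hj⟩, i⟩
      simp only [Finset.mem_filter, Finset.mem_univ, true_and, Finset.mem_map,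
        Function.Embedding.coeFn_mk, Nat.add_right_cancel_iff]
      constructor
      · rintro rfl
        exact ⟨i, rfl⟩
      · rintro ⟨a, ha⟩
        exact (congrArg (fun z => z.1.1) ha).symm
    rw [this, Finset.card_map, Finset.card_univ, Fintype.card_fin]
  · refine Finset.card_eq_zero.2 (Finset.filter_eq_empty_iff.2 fun i _ hi => h ?_)
    exact hi ▸ i.1.2

theorem master (d : ℕ) (hd : 0 < d) (M : Type*) [TopologicalSpace M]
    [ChartedSpace (EuclideanSpace ℝ (Fin d)) M] [IsManifold (𝓡 d) ∞ M] [T2Space M]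
    [CompactSpace M] [Nonempty M] :
    ∃ C : ℝ≥0, ∀ (t : ℕ → ℝ≥0) (ε : ℝ≥0), 0 < ε → ∃ g : RMetric d M,
      (∀ k, 0 < k → k ≤ d → ∀ A : Set M, ¬ Inessential k A → (t k : ℝ≥0∞) ≤ vol g k A) ∧
      vol g d univ ≤ (C * ∑ p : Nat.Partition d, (p.parts.map t).prod + ε : ℝ≥0) := by
  obtain ⟨m, e, R, he, hinj, hR, hRe⟩ := exists_retract d M
  have hK := isCompact_range he.continuous
  obtain ⟨lam, C1, hlam, hmet⟩ := metric_pack d m hd M e he hinj
  obtain ⟨C2, htau⟩ := exists_tau d m _ hK (fun ι _ hι t c => by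
    rw [← range_comp]
    exact range_null d M hι _ ((show ContDiff ℝ ∞ fun (x : Fin m → ℝ) i => x (t i) + c i by
      fun_prop).contMDiff.comp he)) lam
  obtain ⟨C3, hC3⟩ := W_lip
  obtain ⟨ck, hck⟩ : ∃ ck : ℕ → ℝ≥0, ∀ k, ck k = Measure.addHaarScalarFactor
    (volume : Measure (EuclideanSpace ℝ (Fin k))) μH[(k : ℕ)] := ⟨_, fun _ => rfl⟩
  have hck0 : ∀ k, 0 < ck k := fun k => pos_iff_ne_zero.2
    (hck k ▸ Measure.addHaarScalarFactor_volume_hausdorffMeasure_ne_zero _)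
  obtain ⟨c, hc1, hc⟩ : ∃ c : ℝ≥0, 1 ≤ c ∧ ∀ k ≤ d, 2 ^ k * 2 ^ d ≤ c * ck k :=
    ⟨1 + ∑ k ∈ Finset.range (d + 1), 2 ^ k * 2 ^ d / ck k, le_self_add, fun k hk => by
      rw [← div_le_iff₀ (hck0 k)]
      exact (Finset.single_le_sum (f := fun k => 2 ^ k * 2 ^ d / ck k) (fun _ _ => zero_le)
        (Finset.mem_range.2 (Nat.lt_succ_of_le hk))).trans le_add_self⟩
  obtain ⟨C5, hC5⟩ : ∃ C5 : ℝ≥0, C5 = C1 * C2 * (2 * (2 ^ d * m * (m * (C3 * NNReal.pi))) + 2) ^ d :=
    ⟨_, rfl⟩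
  refine ⟨C5 * 2 ^ (d * m) * c ^ d, fun t ε hε => ?_⟩
  obtain ⟨s, ⟨s1, s2⟩, s0⟩ : ∃ s : ℝ≥0, (C5 * (Psi d (fun k => c * t k) s * 2 ^ (d * m) + s ^ d) <
      C5 * (Psi d (fun k => c * t k) 0 * 2 ^ (d * m) + 0 ^ d) + ε / 2 ∧ s < 1) ∧ 0 < s := by
    have h1 : Continuous fun s : ℝ≥0 =>
        C5 * (Psi d (fun k => c * t k) s * 2 ^ (d * m) + s ^ d) :=
      continuous_const.mul (((continuous_Psi _ _).mul continuous_const).add (continuous_pow _))
    exact (((((h1.tendsto 0).eventually (gt_mem_nhds (lt_add_of_pos_right _ (half_pos hε)))).and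
      (gt_mem_nhds zero_lt_one)).filter_mono (nhdsWithin_le_nhds (s := Ioi 0))).and
        self_mem_nhdsWithin).exists
  obtain ⟨κ, _, _, ty, h1, hty⟩ := exists_types d fun k => ⌈c * t k / s ^ k⌉₊
  obtain ⟨ρ, hρ, hτ⟩ := htau κ (Adm ty m d) fun π hπ => (Finset.mem_filter.1 hπ).2.1
  obtain ⟨r, r0, r1, r2, r3⟩ : ∃ r : ℝ≥0, 0 < r ∧ r ≤ s ∧ 2 * (r : ℝ) ≤ 1 ∧ 2 * (r : ℝ) ≤ ρ := by
    refine ⟨min s (min (1 / 2) (ρ / 2).toNNReal), lt_min s0 (lt_min (by norm_num)
      (Real.toNNReal_pos.2 (by positivity))), min_le_left _ _, ?_, ?_⟩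
    · have : ((min s (min (1 / 2) (ρ / 2).toNNReal) : ℝ≥0) : ℝ) ≤ (1 / 2 : ℝ≥0) := by
        exact_mod_cast (min_le_right _ _).trans (min_le_left _ _)
      push_cast at this ⊢
      linarith
    · have : ((min s (min (1 / 2) (ρ / 2).toNNReal) : ℝ≥0) : ℝ) ≤ (ρ / 2).toNNReal := by
        exact_mod_cast (min_le_right _ _).trans (min_le_right _ _)
      rw [Real.coe_toNNReal _ (by positivity)] at this
      linarith
  have r0' : (0 : ℝ) < r := r0
  obtain ⟨τ, t1, t2⟩ := hτ (2 * r) (by positivity) r2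
  obtain ⟨g, hg1, hg2⟩ := hmet (Sh ty m × Fin m) (FF τ r s) FF_smooth _
    (isOpen_Un (Adm ty m d) τ (2 * r)) (2 ^ d * m * (s * (m * (C3 * NNReal.pi / r)))) (min 1 (ε / 2))
    (lt_min one_pos (half_pos hε)) (min_le_left _ _)
    (fun p _ v => by
      have := norm_bound (s := s) hC3 h1 r0' s.2 r3 (t1 _ ⟨p, rfl⟩) v
      push_cast
      exact this)
    fun p hp => degenerate r0' r3 (t1 _ ⟨p, rfl⟩) hp
  refine ⟨g, fun k k0 k1 A hA => ?_, hg2.trans ?_⟩
  · let _ : EMetricSpace M := rdist g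
    let _ : MeasurableSpace M := borel M
    have _ : BorelSpace M := ⟨rfl⟩
    change _ ≤ Measure.euclideanHausdorffMeasure k A
    rw [Measure.euclideanHausdorffMeasure_def, ← hck, Measure.smul_apply, ENNReal.smul_def,
      smul_eq_mul]
    have h2 := ess_bound he.continuous h1 r0' (by linarith) r3 (fun p => t1 _ ⟨p, rfl⟩) s0 hg1
      (A := A) (k := k) fun θ => by
        by_contra! h
        exact hA (inessential_of_Wlt he.continuous hK.isBounded hR hRe θ h)
    rw [hty k k0, if_pos k1] at h2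
    have h3 : ((c * t k / s ^ k : ℝ≥0) : ℝ≥0∞) ≤ _ :=
      le_trans (by exact_mod_cast Nat.le_ceil (c * t k / s ^ k)) h2
    rcases eq_or_ne (μH[(k : ℕ)] A) ⊤ with h | h
    · rw [h, ENNReal.mul_top (by simpa using (hck0 k).ne')]
      exact le_top
    lift μH[(k : ℕ)] A to ℝ≥0 using h with x
    have h4 : c * t k / s ^ k ≤ (2 / s) ^ k * (2 ^ d * x) := by exact_mod_cast h3
    rw [div_pow, div_mul_eq_mul_div, div_le_div_iff_of_pos_right (by positivity), ← mul_assoc] at h4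
    have h5 := h4.trans (mul_le_mul_left (hc k k1) x)
    rw [mul_assoc] at h5
    exact_mod_cast le_of_mul_le_mul_left h5 (zero_lt_one.trans_le hc1)
  · have h2 : s ^ d * ((Adm ty m d).card : ℝ≥0) ≤ Psi d (fun k => c * t k) s * 2 ^ (d * m) := by
      have h3 := count_le_Psi d (fun k => c * t k) s
        (fun k => (Finset.univ.filter fun i => ty i = k).card) fun k k0 => by
          rw [hty k k0]
          split_ifs
          · have h4 := (Nat.ceil_lt_add_one (zero_le (a := c * t k / s ^ k))).le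
            refine (mul_le_mul_right h4 _).trans ?_
            rw [mul_add, mul_div_cancel₀ _ (by positivity), mul_one]
            gcongr
            exact pow_le_of_le_one zero_le s2.le k0.ne'
          · simp
      refine le_trans ?_ (mul_le_mul_left h3 _)
      rw [mul_assoc]
      gcongr
      exact_mod_cast card_Adm ty h1 m d
    have h3 : (2 ^ d * m * (s * (m * (C3 * NNReal.pi / r))) + 1) * (2 * r) ≤
        (2 * (2 ^ d * m * (m * (C3 * NNReal.pi))) + 2) * s := by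
      rw [add_mul, add_mul, one_mul]
      refine add_le_add (le_of_eq ?_) (by gcongr)
      field_simp
    have h4 : C1 * ((2 ^ d * m * (s * (m * (C3 * NNReal.pi / r))) + 1) ^ d *
        (C2 * ((Adm ty m d).card + 1) * (2 * r) ^ d)) + min 1 (ε / 2) ≤
        C5 * 2 ^ (d * m) * c ^ d * ∑ p : Nat.Partition d, (p.parts.map t).prod + ε := by
      calc _ = C1 * C2 * ((2 ^ d * m * (s * (m * (C3 * NNReal.pi / r))) + 1) * (2 * r)) ^ d *
            ((Adm ty m d).card + 1) + min 1 (ε / 2) := by rw [mul_pow _ (2 * r)]; ring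
        _ ≤ C1 * C2 * ((2 * (2 ^ d * m * (m * (C3 * NNReal.pi))) + 2) * s) ^ d *
            ((Adm ty m d).card + 1) + ε / 2 := by gcongr; exact min_le_right _ _
        _ = C5 * (s ^ d * (Adm ty m d).card + s ^ d) + ε / 2 := by rw [hC5, mul_pow _ s]; ring
        _ ≤ C5 * (Psi d (fun k => c * t k) s * 2 ^ (d * m) + s ^ d) + ε / 2 := by gcongr
        _ ≤ C5 * (Psi d (fun k => c * t k) 0 * 2 ^ (d * m) + 0 ^ d) + ε / 2 + ε / 2 := by gcongr
        _ = C5 * 2 ^ (d * m) * Psi d (fun k => c * t k) 0 + ε := by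
            rw [zero_pow hd.ne', add_assoc, add_halves]; ring
        _ ≤ _ := by
            rw [Psi_zero, mul_assoc _ (c ^ d), Finset.mul_sum _ _ (c ^ d)]
            gcongr with p
            exact prod_const_le c hc1 t p
    refine le_trans ?_ (ENNReal.coe_le_coe.2 h4)
    have t3 : lam (Un (Adm ty m d) τ (2 * r)) ≤
        (C2 * ((Adm ty m d).card + 1) * (2 * r) ^ d : ℝ≥0) := by
      refine t2.trans (le_of_eq ?_)
      rw [show (2 * r : ℝ) = ((2 * r : ℝ≥0) : ℝ) by simp, ENNReal.ofReal_coe_nnreal]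
      push_cast
      rfl
    generalize (2 ^ d * m * (s * (m * (C3 * NNReal.pi / r))) : ℝ≥0) = L
    generalize (C2 * ((Adm ty m d).card + 1) * (2 * r) ^ d : ℝ≥0) = B at t3
    push_cast
    gcongr

end Pool.Agent.Lib.MP_d476f3_gt.Abs
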